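import Mathlib
import Pool.Agent.H557R3.GLPFix

/-!
# Admissible rules of GLP: definitions

We work with the syntax `Fm α`, the derivations `Der` and the maximal consistent sets `IsMCS` of the
starting files `H557R3/GLPBasic`, `GLPExact`, `GLPFix` (namespace `Pool.Agent.H557R3.GLP`).

Numbering of formulas: `0` is `⊥`, `vc i` is the variable `i`, `ic a b` is the implication of the
formulas number `a` and `b`, `bc k a` is `[k]` of the formula number `a`.  Every number is of exactly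
one of these forms.  The set of formulas with number `≤ N` is closed under subformulas.  A *type* is a
set of numbers `≤ N` (the formulas with number `≤ N` that are true at a point).
-/

set_option autoImplicit false

namespace Pool.Agent.W897.GA

open Pool.Agent.H557R3.GLP Pool.Agent.H557R3.GLP.Fm

/-! ### numbering -/

def vc (i : ℕ) : ℕ := 3 * i + 1
def ic (a b : ℕ) : ℕ := 3 * Nat.pair a b + 2
def bc (k a : ℕ) : ℕ := 3 * Nat.pair k a + 3

theorem ic_left (a b : ℕ) : a < ic a b := by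
  have := Nat.left_le_pair a b
  unfold ic; omega

theorem ic_right (a b : ℕ) : b < ic a b := by
  have := Nat.right_le_pair a b
  unfold ic; omega

theorem bc_left (k a : ℕ) : k < bc k a := by
  have := Nat.left_le_pair k a
  unfold bc; omega

theorem bc_right (k a : ℕ) : a < bc k a := by
  have := Nat.right_le_pair k a
  unfold bc; omega

theorem vc_gt (i : ℕ) : i < vc i := by unfold vc; omega

theorem num_cases (c : ℕ) : c = 0 ∨ (∃ i, c = vc i) ∨ (∃ a b, c = ic a b) ∨ ∃ k a, c = bc k a := by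
  rcases Nat.eq_zero_or_pos c with h | h
  · exact Or.inl h
  · right
    have h3 : (c - 1) % 3 = 0 ∨ (c - 1) % 3 = 1 ∨ (c - 1) % 3 = 2 := by omega
    rcases h3 with h3 | h3 | h3
    · left
      exact ⟨(c - 1) / 3, by unfold vc; omega⟩
    · right; left
      refine ⟨(Nat.unpair ((c - 1) / 3)).1, (Nat.unpair ((c - 1) / 3)).2, ?_⟩
      unfold ic
      rw [Nat.pair_unpair]
      omega
    · right; right
      refine ⟨(Nat.unpair ((c - 1) / 3)).1, (Nat.unpair ((c - 1) / 3)).2, ?_⟩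
      unfold bc
      rw [Nat.pair_unpair]
      omega

theorem vc_inj {i j : ℕ} : vc i = vc j ↔ i = j := by unfold vc; omega
theorem ic_inj {a b c d : ℕ} : ic a b = ic c d ↔ a = c ∧ b = d := by
  unfold ic
  rw [← Nat.pair_eq_pair]
  omega
theorem bc_inj {a b c d : ℕ} : bc a b = bc c d ↔ a = c ∧ b = d := by
  unfold bc
  rw [← Nat.pair_eq_pair]
  omega
theorem vc_ne_ic (i a b : ℕ) : vc i ≠ ic a b := by unfold vc ic; omega
theorem vc_ne_bc (i a b : ℕ) : vc i ≠ bc a b := by unfold vc bc; omega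
theorem ic_ne_bc (a b c d : ℕ) : ic a b ≠ bc c d := by unfold ic bc; omega
theorem vc_ne_zero (i : ℕ) : vc i ≠ 0 := by unfold vc; omega
theorem ic_ne_zero (a b : ℕ) : ic a b ≠ 0 := by unfold ic; omega
theorem bc_ne_zero (a b : ℕ) : bc a b ≠ 0 := by unfold bc; omega

/-- The number of a formula. -/
def code : Fm ℕ → ℕ
  | var i => vc i
  | bot => 0
  | imp a b => ic (code a) (code b)
  | box k a => bc k (code a)

/-- The formula with number `c`, over the variables `< n` (other variables are replaced by `⊥`). -/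
def D (n : ℕ) (c : ℕ) : Fm (Fin n) :=
  if h0 : c = 0 then bot
  else if h1 : (c - 1) % 3 = 0 then
    if h : (c - 1) / 3 < n then var ⟨(c - 1) / 3, h⟩ else bot
  else if h2 : (c - 1) % 3 = 1 then
    imp (D n (Nat.unpair ((c - 1) / 3)).1) (D n (Nat.unpair ((c - 1) / 3)).2)
  else box (Nat.unpair ((c - 1) / 3)).1 (D n (Nat.unpair ((c - 1) / 3)).2)
termination_by c
decreasing_by
  all_goals
    have e1 := Nat.unpair_left_le ((c - 1) / 3)
    have e2 := Nat.unpair_right_le ((c - 1) / 3)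
    omega

theorem D_zero (n : ℕ) : D n 0 = bot := by
  unfold D; simp

theorem D_vc (n i : ℕ) (h : i < n) : D n (vc i) = var ⟨i, h⟩ := by
  have e : (vc i - 1) / 3 = i := by unfold vc; omega
  have e0 : ¬ vc i = 0 := vc_ne_zero i
  have e1 : (vc i - 1) % 3 = 0 := by unfold vc; omega
  unfold D
  rw [dif_neg e0, dif_pos e1, dif_pos (by rw [e]; exact h)]
  simp only [e]

theorem D_ic (n a b : ℕ) : D n (ic a b) = imp (D n a) (D n b) := by
  have e : (ic a b - 1) / 3 = Nat.pair a b := by unfold ic; omega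
  have e0 : ¬ ic a b = 0 := ic_ne_zero a b
  have e1 : ¬ (ic a b - 1) % 3 = 0 := by unfold ic; omega
  have e2 : (ic a b - 1) % 3 = 1 := by unfold ic; omega
  rw [D, dif_neg e0, dif_neg e1, dif_pos e2, e, Nat.unpair_pair]

theorem D_bc (n k a : ℕ) : D n (bc k a) = box k (D n a) := by
  have e : (bc k a - 1) / 3 = Nat.pair k a := by unfold bc; omega
  have e0 : ¬ bc k a = 0 := bc_ne_zero k a
  have e1 : ¬ (bc k a - 1) % 3 = 0 := by unfold bc; omega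
  have e2 : ¬ (bc k a - 1) % 3 = 1 := by unfold bc; omega
  rw [D, dif_neg e0, dif_neg e1, dif_neg e2, e, Nat.unpair_pair]

/-! ### points -/

section points

variable {α : Type}

/-- `w` is a `k`-successor of `v` -/
def Acc (k : ℕ) (v w : Set (Fm α)) : Prop := ∀ θ, box k θ ∈ v → θ ∈ w

/-- `v` and `w` contain the same formulas `[i]θ`, `i < k` -/
def SameTh (k : ℕ) (v w : Set (Fm α)) : Prop := ∀ i < k, ∀ θ, box i θ ∈ v ↔ box i θ ∈ w

/-- `v` is an `i`-successor of itself for all `i < k` -/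
def Rfl (k : ℕ) (v : Set (Fm α)) : Prop := ∀ i < k, ∀ θ, box i θ ∈ v → θ ∈ v

/-- change the values of the variables at the point `v` -/
def chg (a : α → Prop) (v : Set (Fm α)) : Set (Fm α) := {x | ev a (fun m χ => box m χ ∈ v) x}

/-- the new root below which the family `u` is put, seen via the modality `K` -/
def root (a : α → Prop) {ι : Type} (K : ℕ) (u : ι → Set (Fm α)) : Set (Fm α) :=
  {x | ev a (rootBox K u) x}

/-- limit along an ultrafilter -/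
def lim {ι : Type} (𝒱 : Ultrafilter ι) (v : ι → Set (Fm α)) : Set (Fm α) :=
  {a | ∀ᶠ i in (𝒱 : Filter ι), a ∈ v i}

/-- definable by a formula -/
def Dfn (P : Set (Fm α) → Prop) : Prop := ∃ θ : Fm α, ∀ v, IsMCS v → (P v ↔ θ ∈ v)

end points

/-! ### types -/

/-- the type of a point -/
def ty {n : ℕ} (N : ℕ) (v : Set (Fm (Fin n))) : Set ℕ := {c | c ≤ N ∧ D n c ∈ v}

/-- the contents of the boxes `[k]` of a type -/
def part (k : ℕ) (x : Set ℕ) : Set ℕ := {χ | bc k χ ∈ x}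

/-- boolean correctness -/
def Valid (N : ℕ) (x : Set ℕ) : Prop :=
  (∀ c ∈ x, c ≤ N) ∧ 0 ∉ x ∧ ∀ a b, ic a b ≤ N → (ic a b ∈ x ↔ (a ∈ x → b ∈ x))

/-- reflexivity for `[k]` at the level of types -/
def rf (k : ℕ) (x : Set ℕ) : Prop := ∀ χ, bc k χ ∈ x → χ ∈ x

/-- all boxes `[m]`, `m ≥ k`, are true (no successors) -/
def triv (N k : ℕ) (x : Set ℕ) : Prop := ∀ m, k ≤ m → ∀ χ, bc m χ ≤ N → bc m χ ∈ x

/-- `t` is a tight predecessor of `X` for `[k]` -/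
def tight (N k : ℕ) (X : Set (Set ℕ)) (t : Set ℕ) : Prop :=
  (∀ χ, bc k χ ≤ N → (bc k χ ∈ t ↔ ∀ x ∈ X, χ ∈ x ∧ bc k χ ∈ x)) ∧ triv N (k + 1) t

/-- The combinatorial conditions for variant contexts (`R` types of recurrent points, `L` types of
all points), with `f` levels left. -/
def RP (N : ℕ) : ℕ → ℕ → Set (Set ℕ) → Set (Set ℕ) → Prop
  | 0, _, _, _ => True
  | f + 1, k, R, L =>
    (∀ X ⊆ R, ∃ t ∈ L, tight N k X t) ∧
    (∀ x ∈ L, ∀ χ, bc k χ ≤ N → bc k χ ∉ x →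
      ∃ x' ∈ R, χ ∉ x' ∧ bc k χ ∈ x' ∧ ∀ χ', bc k χ' ∈ x → χ' ∈ x' ∧ bc k χ' ∈ x') ∧
    (R.Nonempty → ∃ b ∈ R, triv N k b) ∧
    (∀ x ∈ L, ¬ triv N (k + 1) x → ∃ R' L' : Set (Set ℕ),
      (∀ y ∈ R', y ∈ R ∧ part k y = part k x ∧ rf k y) ∧
      (∀ y ∈ L', y ∈ L ∧ part k y = part k x) ∧ R' ⊆ L' ∧ x ∈ L' ∧ R'.Nonempty ∧
      RP N f (k + 1) R' L')

/-- The combinatorial conditions for final contexts. -/
def FP (N : ℕ) : ℕ → ℕ → Set (Set ℕ) → Prop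
  | 0, _, L => L.Nonempty
  | f + 1, k, L =>
    (∀ X ⊆ {x ∈ L | ∀ i < k, rf i x}, ∃ t ∈ L, tight N k X t) ∧
    (∀ s ∈ L, (∀ i < k + 1, rf i s) → ∃ L' : Set (Set ℕ),
      (∀ y ∈ L', y ∈ L ∧ part k y = part k s) ∧ FP N f (k + 1) L')

/-- The finite criterion: the rule `φ / ψ` (given by the numbers of the formulas) is refuted. -/
def Crit (φ ψ : ℕ) : Prop :=
  ∃ Θ : Set (Set ℕ), (∀ x ∈ Θ, Valid (max φ ψ) x) ∧
    RP (max φ ψ) (max φ ψ + 1) 0 Θ Θ ∧ FP (max φ ψ) (max φ ψ + 1) 0 Θ ∧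
    (∀ x ∈ Θ, φ ∈ x) ∧ ∃ x ∈ Θ, ψ ∉ x

/-! ### contexts -/

/-- `w` is a `k`-successor of `v` with the same `[k]`-part of the type -/
def E {n : ℕ} (N k : ℕ) (v w : Set (Fm (Fin n))) : Prop :=
  IsMCS w ∧ Acc k v w ∧ part k (ty N w) = part k (ty N v)

/-- Properties of the pair `κ, δ` of predicates of points built from `RP N _ k R L`. -/
structure Ctx (n N k : ℕ) (R L : Set (Set ℕ)) (κ δ : Set (Fm (Fin n)) → Prop) : Prop where
  dfnκ : Dfn κ
  dfnδ : Dfn δ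
  kL : ∀ v, IsMCS v → κ v → ty N v ∈ L
  dR : ∀ v, IsMCS v → δ v → ty N v ∈ R
  dk : ∀ v, IsMCS v → δ v → κ v
  base : ∀ v, IsMCS v → box k bot ∈ v → (ty N v ∈ L → κ v) ∧ (ty N v ∈ R → δ v)
  ep : ∀ y, IsMCS y → (∀ x ∈ L, ∀ i < k, part i x = part i (ty N y)) →
    (∀ w, IsMCS w → Acc k y w → δ w) → ∃ a : Fin n → Prop, κ (chg a y)
  real : 1 ≤ k → ∀ u, IsMCS u → (∀ x ∈ L, ∀ i < k, part i x = part i (ty N u)) → δ u →
    (∀ v, IsMCS v → SameTh k v u → δ v → Rfl k v) →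
    ∀ x ∈ L, ∃ v, IsMCS v ∧ SameTh k v u ∧ ty N v = x ∧ κ v ∧ (x ∈ R → δ v)

/-- A variant for `x` is in force at `v`. -/
def variant {n : ℕ} (N k : ℕ) (L : Set (Set ℕ))
    (ch : Set ℕ → (Set (Fm (Fin n)) → Prop) × (Set (Fm (Fin n)) → Prop))
    (v : Set (Fm (Fin n))) : Prop :=
  ∃ x ∈ L, ¬ triv N (k + 1) x ∧ part k x = part k (ty N v) ∧ (∀ w, E N k v w → (ch x).2 w) ∧
    (ch x).1 v

/-- No variant can be in force at `v`. -/
def noVariant {n : ℕ} (N k : ℕ) (L : Set (Set ℕ))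
    (ch : Set ℕ → (Set (Fm (Fin n)) → Prop) × (Set (Fm (Fin n)) → Prop))
    (v : Set (Fm (Fin n))) : Prop :=
  ∀ x ∈ L, ¬ triv N (k + 1) x → part k x = part k (ty N v) → ¬ ∀ w, E N k v w → (ch x).2 w

/-- `κ` from the children `ch x = (κ_x, δ_x)` -/
def kap {n : ℕ} (N k : ℕ) (L : Set (Set ℕ))
    (ch : Set ℕ → (Set (Fm (Fin n)) → Prop) × (Set (Fm (Fin n)) → Prop))
    (v : Set (Fm (Fin n))) : Prop :=
  ty N v ∈ L ∧ ((∀ w, ¬ E N k v w) ∨ variant N k L ch v ∨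
    (noVariant N k L ch v ∧ box (k + 1) bot ∈ v))

/-- `δ` from the children -/
def del {n : ℕ} (N k : ℕ) (R L : Set (Set ℕ))
    (ch : Set ℕ → (Set (Fm (Fin n)) → Prop) × (Set (Fm (Fin n)) → Prop))
    (v : Set (Fm (Fin n))) : Prop :=
  ty N v ∈ R ∧ ty N v ∈ L ∧ ((∀ w, ¬ E N k v w) ∨ variant N k L ch v)

/-- what is known about the children at level `k` of a variant context -/
structure Child (n N k : ℕ) (R L : Set (Set ℕ))
    (ch : Set ℕ → (Set (Fm (Fin n)) → Prop) × (Set (Fm (Fin n)) → Prop))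
    (RC LC : Set ℕ → Set (Set ℕ)) : Prop where
  hR : ∀ x ∈ L, ¬ triv N (k + 1) x → ∀ y ∈ RC x, y ∈ R ∧ part k y = part k x ∧ rf k y
  hL : ∀ x ∈ L, ¬ triv N (k + 1) x → ∀ y ∈ LC x, y ∈ L ∧ part k y = part k x
  hRL : ∀ x ∈ L, ¬ triv N (k + 1) x → RC x ⊆ LC x
  mem : ∀ x ∈ L, ¬ triv N (k + 1) x → x ∈ LC x
  ne : ∀ x ∈ L, ¬ triv N (k + 1) x → (RC x).Nonempty
  tr : ∀ x ∈ L, ¬ triv N (k + 1) x → ∃ b ∈ RC x, triv N (k + 1) b
  ctx : ∀ x ∈ L, ¬ triv N (k + 1) x → Ctx n N (k + 1) (RC x) (LC x) (ch x).1 (ch x).2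

/-- the first three conditions of `RP` -/
structure RP0 (N k : ℕ) (R L : Set (Set ℕ)) : Prop where
  tp : ∀ X ⊆ R, ∃ t ∈ L, tight N k X t
  wit : ∀ x ∈ L, ∀ χ, bc k χ ≤ N → bc k χ ∉ x →
      ∃ x' ∈ R, χ ∉ x' ∧ bc k χ ∈ x' ∧ ∀ χ', bc k χ' ∈ x → χ' ∈ x' ∧ bc k χ' ∈ x'
  tr : R.Nonempty → ∃ b ∈ R, triv N k b

/-- Properties of `κ` built from `FP N _ k L`. -/
structure FCtx (n N k : ℕ) (L : Set (Set ℕ)) (κ : Set (Fm (Fin n)) → Prop) : Prop where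
  dfn : Dfn κ
  kL : ∀ v, IsMCS v → κ v → ty N v ∈ L
  ep : ∀ y, IsMCS y → (∀ x ∈ L, ∀ i < k, part i x = part i (ty N y)) →
    (∀ w, IsMCS w → Acc k y w → κ w ∧ ∀ i < k, rf i (ty N w)) → ∃ a : Fin n → Prop, κ (chg a y)

/-- The predicate of the top level: `ch` variants, `fc` final children (indexed by the `[0]`-part). -/
def top0 {n : ℕ} (N : ℕ) (Θ : Set (Set ℕ))
    (ch : Set ℕ → (Set (Fm (Fin n)) → Prop) × (Set (Fm (Fin n)) → Prop))
    (fc : Set ℕ → Set (Fm (Fin n)) → Prop) (v : Set (Fm (Fin n))) : Prop :=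
  ty N v ∈ Θ ∧ ((∀ w, ¬ E N 0 v w) ∨ variant N 0 Θ ch v ∨
    (noVariant N 0 Θ ch v ∧ fc (part 0 (ty N v)) v))

/-! ### the set of points of a substitution -/

section K

variable {n : ℕ} {β : Type}

/-- The points which contain all formulas unified by `σ`. -/
def KS (σ : Fin n → Fm β) (v : Set (Fm (Fin n))) : Prop :=
  IsMCS v ∧ ∀ θ : Fm (Fin n), Der ∅ (θ.subst σ) → θ ∈ v

end K

/-! ### the statements of the parts -/

/-- A1: variant data from a substitution -/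
def S_A1 : Prop := ∀ (n N : ℕ) (β : Type) (σ : Fin n → Fm β) (f k : ℕ) (v0 : Set (Fm (Fin n))),
  KS σ v0 → (k = 0 ∨ ∃ u, KS σ u ∧ SameTh k u v0 ∧ Rfl k u) →
  RP N f k {x | ∃ v, KS σ v ∧ SameTh k v v0 ∧ Rfl k v ∧ ty N v = x}
    {x | ∃ v, KS σ v ∧ SameTh k v v0 ∧ ty N v = x}

/-- A2: final data from a substitution -/
def S_A2 : Prop := ∀ (n N : ℕ) (β : Type) (σ : Fin n → Fm β) (f k : ℕ) (v0 : Set (Fm (Fin n))),
  KS σ v0 → box k bot ∈ v0 →
  (∀ v, KS σ v → SameTh k v v0 → (∀ i < k, rf i (ty N v)) → Rfl k v) →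
  FP N f k {x | ∃ v, KS σ v ∧ SameTh k v v0 ∧ ty N v = x}

/-- new roots exist in `KS σ` -/
def S_Kroot : Prop := ∀ (n : ℕ) (β : Type) (σ : Fin n → Fm β) (ι : Type) (K : ℕ)
  (u : ι → Set (Fm (Fin n))), (∀ i, KS σ (u i)) →
  (∀ m, m < K → ∀ i j x, box m x ∈ u i → box m x ∈ u j) →
  (∀ m, m < K → ∀ i j x, box m x ∈ u i → x ∈ u j) →
  ∃ v, KS σ v ∧ ∀ m x, box m x ∈ v ↔ rootBox K u m x

/-- a maximal element -/
def S_Zorn : Prop := ∀ (α : Type) (k : ℕ) (P : Set (Fm α) → Prop),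
  (∀ v, P v → IsMCS v) → (∃ v, P v) →
  (∀ (ι : Type) (𝒱 : Ultrafilter ι) (v : ι → Set (Fm α)), (∀ i, P (v i)) → P (lim 𝒱 v)) →
  ∃ u, P u ∧ ∀ v, P v → Acc k v u → (v = u ∨ Acc k u v)

/-- the predicates of a variant context are definable -/
def S_Dfn : Prop := ∀ (n N k : ℕ) (R L : Set (Set ℕ))
  (ch : Set ℕ → (Set (Fm (Fin n)) → Prop) × (Set (Fm (Fin n)) → Prop)),
  (∀ x ∈ L, ∀ c ∈ x, c ≤ N) → (∀ x ∈ L, ¬ triv N (k + 1) x → Dfn (ch x).1 ∧ Dfn (ch x).2) →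
  Dfn (kap N k L ch) ∧ Dfn (del N k R L ch)

/-- the predicate of the top level is definable -/
def S_DfnTop : Prop := ∀ (n N : ℕ) (Θ : Set (Set ℕ))
  (ch : Set ℕ → (Set (Fm (Fin n)) → Prop) × (Set (Fm (Fin n)) → Prop))
  (fc : Set ℕ → Set (Fm (Fin n)) → Prop),
  (∀ x ∈ Θ, ∀ c ∈ x, c ≤ N) → (∀ x ∈ Θ, ¬ triv N 1 x → Dfn (ch x).1 ∧ Dfn (ch x).2) →
  (∀ S, Dfn (fc S)) → Dfn (top0 N Θ ch fc)

/-- extension property of a variant context -/
def S_ep : Prop := ∀ (n N k : ℕ) (R L : Set (Set ℕ))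
  (ch : Set ℕ → (Set (Fm (Fin n)) → Prop) × (Set (Fm (Fin n)) → Prop))
  (RC LC : Set ℕ → Set (Set ℕ)), N < n → (∀ x ∈ L, Valid N x) → R ⊆ L → RP0 N k R L →
  Child n N k R L ch RC LC →
  ∀ y, IsMCS y → (∀ x ∈ L, ∀ i < k, part i x = part i (ty N y)) →
    (∀ w, IsMCS w → Acc k y w → del N k R L ch w) → ∃ a : Fin n → Prop, kap N k L ch (chg a y)

/-- realisation in a variant context -/
def S_real : Prop := ∀ (n N k : ℕ) (R L : Set (Set ℕ))
  (ch : Set ℕ → (Set (Fm (Fin n)) → Prop) × (Set (Fm (Fin n)) → Prop))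
  (RC LC : Set ℕ → Set (Set ℕ)), N < n → (∀ x ∈ L, Valid N x) → R ⊆ L → RP0 N k R L →
  Child n N k R L ch RC LC →
  1 ≤ k → ∀ u, IsMCS u → (∀ x ∈ L, ∀ i < k, part i x = part i (ty N u)) → del N k R L ch u →
    (∀ v, IsMCS v → SameTh k v u → del N k R L ch v → Rfl k v) →
    ∀ x ∈ L, ∃ v, IsMCS v ∧ SameTh k v u ∧ ty N v = x ∧ kap N k L ch v ∧ (x ∈ R → del N k R L ch v)

/-- final contexts -/
def S_F : Prop := ∀ (n N f k : ℕ) (L : Set (Set ℕ)), N < n → k + f = N + 1 → (∀ x ∈ L, Valid N x) →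
  FP N f k L → ∃ κ : Set (Fm (Fin n)) → Prop, FCtx n N k L κ

/-- extension property of the top level -/
def S_epTop : Prop := ∀ (n N : ℕ) (Θ : Set (Set ℕ))
  (ch : Set ℕ → (Set (Fm (Fin n)) → Prop) × (Set (Fm (Fin n)) → Prop))
  (RC LC : Set ℕ → Set (Set ℕ)) (fc : Set ℕ → Set (Fm (Fin n)) → Prop) (LF : Set ℕ → Set (Set ℕ)),
  N < n → (∀ x ∈ Θ, Valid N x) → RP0 N 0 Θ Θ → Child n N 0 Θ Θ ch RC LC →
  (∀ s ∈ Θ, rf 0 s → (∀ y ∈ LF (part 0 s), y ∈ Θ ∧ part 0 y = part 0 s) ∧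
    FCtx n N 1 (LF (part 0 s)) (fc (part 0 s))) →
  ∀ y, IsMCS y → (∀ w, IsMCS w → Acc 0 y w → top0 N Θ ch fc w) →
    ∃ a : Fin n → Prop, top0 N Θ ch fc (chg a y)

/-- realisation at the top level -/
def S_realTop : Prop := ∀ (n N : ℕ) (Θ : Set (Set ℕ))
  (ch : Set ℕ → (Set (Fm (Fin n)) → Prop) × (Set (Fm (Fin n)) → Prop))
  (RC LC : Set ℕ → Set (Set ℕ)) (fc : Set ℕ → Set (Fm (Fin n)) → Prop),
  N < n → (∀ x ∈ Θ, Valid N x) → RP0 N 0 Θ Θ → Child n N 0 Θ Θ ch RC LC →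
  Dfn (top0 N Θ ch fc) →
  ∀ x ∈ Θ, ∃ v, IsMCS v ∧ ty N v = x ∧ top0 N Θ ch fc v ∧
    ∀ w, IsMCS w → Acc 0 v w → top0 N Θ ch fc w

/-- formulas with the extension property are projective -/
def S_proj : Prop := ∀ (n : ℕ) (φ : Fm (Fin n)),
  (∀ y : Set (Fm (Fin n)), IsMCS y → box 0 φ ∈ y → ∃ a : Fin n → Prop, φ ∈ chg a y) →
  ∃ T : Fin n → Fm (Fin n), Der ∅ (φ.subst T) ∧
    ∀ ψ : Fm (Fin n), ∀ x, IsMCS x → φ ∈ x → box 0 φ ∈ x → (ψ.subst T ∈ x ↔ ψ ∈ x)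

/-- the criterion is computable -/
def S_comp : Prop := ComputablePred fun p : ℕ × ℕ => Crit p.1 p.2

end Pool.Agent.W897.GA
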