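import Mathlib
import Pool.Agent.W897.GA.Defs

/-!
# Admissible rules of GLP: tools
-/

set_option autoImplicit false

namespace Pool.Agent.W897.GA

open Pool.Agent.H557R3.GLP Pool.Agent.H557R3.GLP.Fm

section points

variable {α : Type}

/-! ### maximal consistent sets -/

theorem mcs_ext {v w : Set (Fm α)} (hv : IsMCS v) (hw : IsMCS w) (h : v ⊆ w) : v = w := by
  refine Set.Subset.antisymm h ?_
  intro a ha
  rcases hv.compl a with h1 | h1
  · exact h1
  · exact absurd (hw.mp _ _ (h h1) ha) hw.nbot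

/-- finite conjunction -/
def conj : List (Fm α) → Fm α
  | [] => top
  | a :: l => Fm.and a (conj l)

theorem mem_conj {v : Set (Fm α)} (hv : IsMCS v) (l : List (Fm α)) :
    conj l ∈ v ↔ ∀ a ∈ l, a ∈ v := by
  induction l with
  | nil => simp [conj, mem_top hv]
  | cons a l ih => simp [conj, mem_and hv, ih]

/-- finite disjunction -/
def disj : List (Fm α) → Fm α
  | [] => bot
  | a :: l => Fm.imp (neg a) (disj l)

theorem mem_disj {v : Set (Fm α)} (hv : IsMCS v) (l : List (Fm α)) :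
    disj l ∈ v ↔ ∃ a ∈ l, a ∈ v := by
  induction l with
  | nil => simp [disj, hv.nbot]
  | cons a l ih =>
    simp only [disj, mem_imp hv, mem_neg hv, ih, List.mem_cons, exists_eq_or_imp]
    tauto

theorem box_imp {v : Set (Fm α)} (hv : IsMCS v) (k : ℕ) {a b : Fm α}
    (h : ∀ w, IsMCS w → a ∈ w → b ∈ w) (h2 : box k a ∈ v) : box k b ∈ v :=
  box_mono hv k ((der_imp_iff _ _).2 h) h2

theorem box_and {v : Set (Fm α)} (hv : IsMCS v) (k : ℕ) (a b : Fm α) :
    box k (Fm.and a b) ∈ v ↔ box k a ∈ v ∧ box k b ∈ v := by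
  constructor
  · intro h
    exact ⟨box_imp hv k (fun _ hw h => ((mem_and hw _ _).1 h).1) h,
      box_imp hv k (fun _ hw h => ((mem_and hw _ _).1 h).2) h⟩
  · rintro ⟨h1, h2⟩
    rw [mem_box hv] at *
    intro w hw hR
    rw [mem_and hw]
    exact ⟨h1 w hw hR, h2 w hw hR⟩

/-! ### successors -/

theorem Acc.trans {k : ℕ} {u v w : Set (Fm α)} (hu : IsMCS u) (h1 : Acc k u v) (h2 : Acc k v w) :
    Acc k u w := fun θ h => h2 θ (h1 _ (box_four hu k h))

theorem Acc.mono {i j : ℕ} (hij : i ≤ j) {v w : Set (Fm α)} (hv : IsMCS v) (h : Acc j v w) :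
    Acc i v w := fun θ hθ => h θ (box_le hv hij hθ)

theorem Acc.box {i k : ℕ} (hik : i ≤ k) {v w : Set (Fm α)} (hv : IsMCS v) (h : Acc k v w)
    {θ : Fm α} (hθ : Fm.box i θ ∈ v) : Fm.box i θ ∈ w := h _ (box_box hv hik hθ)

theorem Acc.same {k : ℕ} {v w : Set (Fm α)} (hv : IsMCS v) (hw : IsMCS w) (h : Acc k v w) :
    SameTh k v w := by
  intro i hi θ
  constructor
  · intro h1
    exact Acc.box hi.le hv h h1
  · intro h1
    by_contra h2
    have h3 := h _ (box_nbox hv hi h2)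
    rw [mem_neg hw] at h3
    exact h3 h1

theorem SameTh.refl {k : ℕ} (v : Set (Fm α)) : SameTh k v v := fun _ _ _ => Iff.rfl

theorem SameTh.symm {k : ℕ} {v w : Set (Fm α)} (h : SameTh k v w) : SameTh k w v :=
  fun i hi θ => (h i hi θ).symm

theorem SameTh.trans {k : ℕ} {u v w : Set (Fm α)} (h1 : SameTh k u v) (h2 : SameTh k v w) :
    SameTh k u w := fun i hi θ => (h1 i hi θ).trans (h2 i hi θ)

theorem SameTh.mono {j k : ℕ} (hjk : j ≤ k) {v w : Set (Fm α)} (h : SameTh k v w) :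
    SameTh j v w := fun i hi θ => h i (lt_of_lt_of_le hi hjk) θ

theorem Rfl.mono {j k : ℕ} (hjk : j ≤ k) {v : Set (Fm α)} (h : Rfl k v) : Rfl j v :=
  fun i hi θ => h i (lt_of_lt_of_le hi hjk) θ

theorem Rfl.acc {k : ℕ} {v : Set (Fm α)} (h : Rfl (k + 1) v) : Acc k v v :=
  fun θ => h k (Nat.lt_succ_self k) θ

/-- points with the same theory, the second reflexive: successors for smaller modalities -/
theorem acc_of_same {i k : ℕ} (hik : i < k) {v w : Set (Fm α)} (h : SameTh k v w)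
    (hw : Rfl k w) : Acc i v w := fun θ hθ => hw i hik θ ((h i hik θ).1 hθ)

/-- a `k`-successor is reflexive below `k` -/
theorem acc_rfl {k : ℕ} {v w : Set (Fm α)} (hv : IsMCS v) (hw : IsMCS w) (h : Acc k v w) :
    Rfl k w := fun i hi θ h1 => Acc.mono hi.le hv h θ ((Acc.same hv hw h i hi θ).2 h1)

theorem exists_Acc {v : Set (Fm α)} (hv : IsMCS v) (k : ℕ) {a : Fm α} (h : Fm.box k a ∉ v) :
    ∃ w, IsMCS w ∧ Acc k v w ∧ a ∉ w := exists_succ hv k h

/-- Löb: a `k`-successor where `a` fails for the last time -/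
theorem lob_succ {v : Set (Fm α)} (hv : IsMCS v) (k : ℕ) {a : Fm α} (h : Fm.box k a ∉ v) :
    ∃ w, IsMCS w ∧ Acc k v w ∧ a ∉ w ∧ Fm.box k a ∈ w := by
  have h1 : Fm.box k (Fm.imp (Fm.box k a) a) ∉ v := fun h1 => h (box_lob hv k h1)
  obtain ⟨w, hw, h2, h3⟩ := exists_succ hv k h1
  rw [mem_imp hw] at h3
  push Not at h3
  exact ⟨w, hw, h2, h3.2, h3.1⟩

/-- The same for predicates definable at the successors: a `k`-successor satisfying `θ` none of whose
`k`-successors satisfies `θ`. -/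
theorem last_succ {v : Set (Fm α)} (hv : IsMCS v) (k : ℕ) {θ : Fm α}
    (h : ∃ w, IsMCS w ∧ Acc k v w ∧ θ ∈ w) :
    ∃ w, IsMCS w ∧ Acc k v w ∧ θ ∈ w ∧ ∀ z, IsMCS z → Acc k w z → θ ∉ z := by
  have h1 : Fm.box k (neg θ) ∉ v := by
    intro h1
    obtain ⟨w, hw, h2, h3⟩ := h
    exact (mem_neg hw _).1 (h2 _ h1) h3
  obtain ⟨w, hw, h2, h3, h4⟩ := lob_succ hv k h1
  refine ⟨w, hw, h2, ?_, ?_⟩
  · rw [mem_neg hw] at h3
    exact not_not.1 h3
  · intro z hz h5 h6
    exact (mem_neg hz _).1 (h5 _ h4) h6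

theorem box_bot_iff {v : Set (Fm α)} (hv : IsMCS v) (k : ℕ) :
    Fm.box k bot ∈ v ↔ ∀ w, IsMCS w → ¬ Acc k v w := by
  rw [mem_box hv]
  constructor
  · intro h w hw h1
    exact hw.nbot (h w hw h1)
  · intro h w hw h1
    exact absurd h1 (h w hw)

theorem box_of_bot {v : Set (Fm α)} (hv : IsMCS v) {k m : ℕ} (hkm : k ≤ m)
    (h : Fm.box k bot ∈ v) (θ : Fm α) : Fm.box m θ ∈ v :=
  box_le hv hkm (box_imp hv k (fun _ hw h1 => absurd h1 hw.nbot) h)

/-! ### changing the valuation -/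

theorem mem_chg_box (a : α → Prop) (v : Set (Fm α)) (m : ℕ) (x : Fm α) :
    Fm.box m x ∈ chg a v ↔ Fm.box m x ∈ v := Iff.rfl

theorem mem_chg_var (a : α → Prop) (v : Set (Fm α)) (i : α) :
    (var i : Fm α) ∈ chg a v ↔ a i := Iff.rfl

theorem acc_chg (a : α → Prop) (v w : Set (Fm α)) (m : ℕ) : Acc m (chg a v) w ↔ Acc m v w :=
  Iff.rfl

theorem sameTh_chg (a : α → Prop) (v : Set (Fm α)) (k : ℕ) : SameTh k (chg a v) v :=
  fun _ _ _ => Iff.rfl

/-- boolean valuations that contain the theorems are maximal consistent sets -/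
theorem mcs_of_ev (a : α → Prop) (e : ℕ → Fm α → Prop) (h : ∀ x, Der ∅ x → ev a e x) :
    IsMCS {x | ev a e x} :=
  { thm := h
    mp := fun _ _ h1 h2 => h1 h2
    nbot := fun h => h
    compl := fun x => Classical.em _ }

theorem chg_mcs (a : α → Prop) {v : Set (Fm α)} (hv : IsMCS v) : IsMCS (chg a v) := by
  refine mcs_of_ev a (fun m χ => Fm.box m χ ∈ v) ?_
  intro x hx
  induction hx with
  | hyp h => exact absurd h (Set.notMem_empty _)
  | ax1 a b => intro h _; exact h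
  | ax2 a b c => intro h h' h''; exact h h'' (h' h'')
  | ax3 a =>
    intro h
    by_contra h'
    exact h h'
  | axK k x y => exact fun h1 h2 => box_mp hv k h1 h2
  | axL k x => exact fun h => box_lob hv k h
  | axM m k x hmk => exact fun h => box_le hv hmk h
  | axN m k x hmk => exact fun h => box_nbox hv hmk h
  | mp _ _ ih1 ih2 => exact ih2 ih1
  | nec k hx _ => exact box_nec hv k hx

/-! ### new roots -/

theorem mem_root_box (a : α → Prop) {ι : Type} (K : ℕ) (u : ι → Set (Fm α)) (m : ℕ) (x : Fm α) :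
    Fm.box m x ∈ root a K u ↔ rootBox K u m x := Iff.rfl

theorem root_mcs (a : α → Prop) {ι : Type} (K : ℕ) (u : ι → Set (Fm α)) (hu : ∀ i, IsMCS (u i))
    (hs : ∀ i j, SameTh K (u i) (u j)) (hr : ∀ i, Rfl K (u i)) : IsMCS (root a K u) :=
  mcs_of_ev a _ fun x hx => root_lemma K u hu (fun m hm i j x' h => (hs i j m hm x').1 h)
    (fun m hm i j x' h => hr j m hm x' ((hs i j m hm x').1 h)) a x hx

theorem root_acc (a : α → Prop) {ι : Type} (K : ℕ) (u : ι → Set (Fm α)) (i : ι) :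
    Acc K (root a K u) (u i) := fun _ h => (h.2 rfl i).1

theorem root_same (a : α → Prop) {ι : Type} (K : ℕ) (u : ι → Set (Fm α))
    (hs : ∀ i j, SameTh K (u i) (u j)) (i : ι) : SameTh K (root a K u) (u i) := by
  intro m hm θ
  rw [mem_root_box]
  constructor
  · intro h
    exact h.1 hm i
  · intro h
    exact ⟨fun _ j => (hs i j m hm θ).1 h, fun h => absurd h (ne_of_lt hm)⟩

theorem root_high (a : α → Prop) {ι : Type} (K : ℕ) (u : ι → Set (Fm α)) {m : ℕ} (hm : K < m)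
    (θ : Fm α) : Fm.box m θ ∈ root a K u := by
  rw [mem_root_box]
  exact ⟨fun h => absurd h (by omega), fun h => absurd h (by omega)⟩

theorem root_box_of (a : α → Prop) {ι : Type} (K : ℕ) (u : ι → Set (Fm α)) (θ : Fm α)
    (h : ∀ i, θ ∈ u i ∧ Fm.box K θ ∈ u i) : Fm.box K θ ∈ root a K u := by
  rw [mem_root_box]
  exact ⟨fun h => absurd h (by omega), fun _ => h⟩

/-- the successors of a new root above finitely many points -/
theorem acc_root_finite (a : α → Prop) {ι : Type} [Finite ι] (K : ℕ) (u : ι → Set (Fm α))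
    (hu : ∀ i, IsMCS (u i)) {w : Set (Fm α)} (hw : IsMCS w) (h : Acc K (root a K u) w) :
    ∃ i, w = u i ∨ Acc K (u i) w := by
  classical
  by_contra hcon
  push Not at hcon
  have key : ∀ i, ∃ θ, θ ∈ u i ∧ Fm.box K θ ∈ u i ∧ θ ∉ w := by
    intro i
    obtain ⟨h1, h2⟩ := hcon i
    have h3 : ∃ θ, θ ∈ u i ∧ θ ∉ w := by
      by_contra h3
      push Not at h3
      exact h1 (mcs_ext (hu i) hw h3).symm
    have h4 : ∃ θ, Fm.box K θ ∈ u i ∧ θ ∉ w := by
      by_contra h4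
      push Not at h4
      exact h2 h4
    obtain ⟨θ, h5, h6⟩ := h3
    obtain ⟨θ', h7, h8⟩ := h4
    refine ⟨Fm.imp (neg θ) θ', ?_, ?_, ?_⟩
    · rw [mem_imp (hu i), mem_neg (hu i)]
      exact fun h => absurd h5 h
    · refine box_imp (hu i) K ?_ h7
      intro z hz h9
      rw [mem_imp hz]
      exact fun _ => h9
    · rw [mem_imp hw, mem_neg hw]
      exact fun h9 => h8 (h9 h6)
  choose θ h1 h2 h3 using key
  have : Fintype ι := Fintype.ofFinite ι
  set l : List (Fm α) := (Finset.univ : Finset ι).toList.map θ with hl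
  have hmem : ∀ i, θ i ∈ l := fun i => by simp [hl]
  have h4 : disj l ∈ w := by
    apply h
    apply root_box_of
    intro i
    refine ⟨(mem_disj (hu i) l).2 ⟨θ i, hmem i, h1 i⟩, ?_⟩
    refine box_imp (hu i) K ?_ (h2 i)
    intro z hz h5
    exact (mem_disj hz l).2 ⟨θ i, hmem i, h5⟩
  obtain ⟨b, hb, hb2⟩ := (mem_disj hw l).1 h4
  rw [hl, List.mem_map] at hb
  obtain ⟨i, -, rfl⟩ := hb
  exact h3 i hb2

/-- the successors of a new root above one point -/
theorem acc_root_single (a : α → Prop) (K : ℕ) {u : Set (Fm α)} (hu : IsMCS u)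
    {w : Set (Fm α)} (hw : IsMCS w) (h : Acc K (root a K fun _ : Unit => u) w) :
    w = u ∨ Acc K u w := by
  obtain ⟨-, h1⟩ := acc_root_finite a K (fun _ : Unit => u) (fun _ => hu) hw h
  exact h1

/-! ### limits -/

theorem lim_mcs {ι : Type} (𝒱 : Ultrafilter ι) (v : ι → Set (Fm α)) (hv : ∀ i, IsMCS (v i)) :
    IsMCS (lim 𝒱 v) := IsMCS.limit 𝒱 v hv

theorem mem_lim {ι : Type} (𝒱 : Ultrafilter ι) (v : ι → Set (Fm α)) (θ : Fm α) :
    θ ∈ lim 𝒱 v ↔ ∀ᶠ i in (𝒱 : Filter ι), θ ∈ v i := Iff.rfl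

theorem mem_lim_of {ι : Type} (𝒱 : Ultrafilter ι) (v : ι → Set (Fm α)) (θ : Fm α)
    (h : ∀ i, θ ∈ v i) : θ ∈ lim 𝒱 v := Filter.Eventually.of_forall h

theorem lim_same {ι : Type} (𝒱 : Ultrafilter ι) (v : ι → Set (Fm α)) (k : ℕ) (u : Set (Fm α))
    (h : ∀ i, SameTh k (v i) u) : SameTh k (lim 𝒱 v) u := by
  intro m hm θ
  constructor
  · intro h1
    obtain ⟨i, hi⟩ := Filter.Eventually.exists ((mem_lim 𝒱 v _).1 h1)
    exact (h i m hm θ).1 hi
  · intro h1
    exact mem_lim_of 𝒱 v _ fun i => (h i m hm θ).2 h1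

theorem lim_rfl {ι : Type} (𝒱 : Ultrafilter ι) (v : ι → Set (Fm α)) (k : ℕ)
    (h : ∀ i, Rfl k (v i)) : Rfl k (lim 𝒱 v) := by
  intro m hm θ h1
  exact Filter.Eventually.mono h1 fun i hi => h i m hm θ hi

theorem Dfn.lim {P : Set (Fm α) → Prop} (hP : Dfn P) {ι : Type} (𝒱 : Ultrafilter ι)
    (v : ι → Set (Fm α)) (hv : ∀ i, IsMCS (v i)) (h : ∀ i, P (v i)) : P (lim 𝒱 v) := by
  obtain ⟨θ, hθ⟩ := hP
  rw [hθ _ (lim_mcs 𝒱 v hv)]
  exact mem_lim_of 𝒱 v θ fun i => (hθ _ (hv i)).1 (h i)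

/-! ### definable predicates -/

theorem Dfn.congr {P Q : Set (Fm α) → Prop} (hP : Dfn P) (h : ∀ v, IsMCS v → (Q v ↔ P v)) :
    Dfn Q := by
  obtain ⟨θ, hθ⟩ := hP
  exact ⟨θ, fun v hv => (h v hv).trans (hθ v hv)⟩

theorem Dfn.mem (θ : Fm α) : Dfn fun v => θ ∈ v := ⟨θ, fun _ _ => Iff.rfl⟩

theorem Dfn.const (p : Prop) : Dfn fun _ : Set (Fm α) => p := by
  by_cases hp : p
  · exact ⟨top, fun v hv => iff_of_true hp (mem_top hv)⟩
  · exact ⟨bot, fun v hv => iff_of_false hp hv.nbot⟩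

theorem Dfn.not {P : Set (Fm α) → Prop} (hP : Dfn P) : Dfn fun v => ¬ P v := by
  obtain ⟨θ, hθ⟩ := hP
  refine ⟨neg θ, fun v hv => ?_⟩
  rw [mem_neg hv]
  exact not_congr (hθ v hv)

theorem Dfn.and {P Q : Set (Fm α) → Prop} (hP : Dfn P) (hQ : Dfn Q) : Dfn fun v => P v ∧ Q v := by
  obtain ⟨θ, hθ⟩ := hP
  obtain ⟨θ', hθ'⟩ := hQ
  refine ⟨Fm.and θ θ', fun v hv => ?_⟩
  rw [mem_and hv]
  exact and_congr (hθ v hv) (hθ' v hv)

theorem Dfn.or {P Q : Set (Fm α) → Prop} (hP : Dfn P) (hQ : Dfn Q) : Dfn fun v => P v ∨ Q v := by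
  refine (hP.not.and hQ.not).not.congr fun v _ => ?_
  tauto

theorem Dfn.imp {P Q : Set (Fm α) → Prop} (hP : Dfn P) (hQ : Dfn Q) : Dfn fun v => P v → Q v := by
  refine (hP.and hQ.not).not.congr fun v _ => ?_
  tauto

theorem Dfn.iff {P Q : Set (Fm α) → Prop} (hP : Dfn P) (hQ : Dfn Q) : Dfn fun v => P v ↔ Q v := by
  refine ((hP.imp hQ).and (hQ.imp hP)).congr fun v _ => ?_
  tauto

theorem Dfn.all_list {γ : Type} (l : List γ) {P : γ → Set (Fm α) → Prop}
    (hP : ∀ x ∈ l, Dfn (P x)) : Dfn fun v => ∀ x ∈ l, P x v := by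
  induction l with
  | nil => exact (Dfn.const True).congr fun v _ => by simp
  | cons a l ih =>
    refine ((hP a (by simp)).and (ih fun x hx => hP x (by simp [hx]))).congr fun v _ => ?_
    simp

theorem Dfn.all_finite {γ : Type} {s : Set γ} (hs : s.Finite) {P : γ → Set (Fm α) → Prop}
    (hP : ∀ x ∈ s, Dfn (P x)) : Dfn fun v => ∀ x ∈ s, P x v := by
  classical
  refine (Dfn.all_list hs.toFinset.toList (P := P) ?_).congr fun v _ => ?_
  · intro x hx
    exact hP x (by simpa using hx)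
  · simp

theorem Dfn.ex_finite {γ : Type} {s : Set γ} (hs : s.Finite) {P : γ → Set (Fm α) → Prop}
    (hP : ∀ x ∈ s, Dfn (P x)) : Dfn fun v => ∃ x ∈ s, P x v := by
  refine ((Dfn.all_finite hs fun x hx => (hP x hx).not).not).congr fun v _ => ?_
  push Not
  rfl

theorem Dfn.succ (k : ℕ) {P : Set (Fm α) → Prop} (hP : Dfn P) :
    Dfn fun v => ∀ w, IsMCS w → Acc k v w → P w := by
  obtain ⟨θ, hθ⟩ := hP
  refine ⟨Fm.box k θ, fun v hv => ?_⟩
  rw [mem_box hv]
  exact forall_congr' fun w => forall_congr' fun hw => forall_congr' fun _ => hθ w hw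

/-- last successor for definable predicates -/
theorem Dfn.last {P : Set (Fm α) → Prop} (hP : Dfn P) {v : Set (Fm α)} (hv : IsMCS v) (k : ℕ)
    (h : ∃ w, IsMCS w ∧ Acc k v w ∧ P w) :
    ∃ w, IsMCS w ∧ Acc k v w ∧ P w ∧ ∀ z, IsMCS z → Acc k w z → ¬ P z := by
  obtain ⟨θ, hθ⟩ := hP
  obtain ⟨w, hw, h1, h2, h3⟩ := last_succ hv k (θ := θ) (by
    obtain ⟨w, hw, h1, h2⟩ := h
    exact ⟨w, hw, h1, (hθ w hw).1 h2⟩)
  exact ⟨w, hw, h1, (hθ w hw).2 h2, fun z hz h4 h5 => h3 z hz h4 ((hθ z hz).1 h5)⟩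

end points

/-! ### types -/

section types

variable {n N : ℕ}

theorem mem_ty {v : Set (Fm (Fin n))} {c : ℕ} : c ∈ ty N v ↔ c ≤ N ∧ D n c ∈ v := Iff.rfl

theorem mem_part {k χ : ℕ} {x : Set ℕ} : χ ∈ part k x ↔ bc k χ ∈ x := Iff.rfl

theorem part_ty {k χ : ℕ} {v : Set (Fm (Fin n))} :
    χ ∈ part k (ty N v) ↔ bc k χ ≤ N ∧ Fm.box k (D n χ) ∈ v := by
  rw [mem_part, mem_ty, D_bc]

theorem ty_valid {v : Set (Fm (Fin n))} (hv : IsMCS v) : Valid N (ty N v) := by
  refine ⟨fun c hc => hc.1, ?_, ?_⟩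
  · rintro ⟨-, h⟩
    rw [D_zero] at h
    exact hv.nbot h
  · intro a b hab
    have ha := ic_left a b
    have hb := ic_right a b
    rw [mem_ty, mem_ty, mem_ty, D_ic, mem_imp hv]
    constructor
    · rintro ⟨-, h⟩ ⟨-, h1⟩
      exact ⟨by omega, h h1⟩
    · intro h
      exact ⟨hab, fun h1 => (h ⟨by omega, h1⟩).2⟩

/-- the type is determined by the variables and the boxes -/
theorem ty_eq (hN : N < n) {v : Set (Fm (Fin n))} (hv : IsMCS v) {x : Set ℕ} (hx : Valid N x)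
    (h1 : ∀ (i : ℕ) (hi : i < n), vc i ≤ N → ((var ⟨i, hi⟩ : Fm (Fin n)) ∈ v ↔ vc i ∈ x))
    (h2 : ∀ m χ, bc m χ ≤ N → (Fm.box m (D n χ) ∈ v ↔ bc m χ ∈ x)) : ty N v = x := by
  have key : ∀ c, c ≤ N → (D n c ∈ v ↔ c ∈ x) := by
    intro c
    induction c using Nat.strong_induction_on with
    | _ c ih =>
      intro hc
      rcases num_cases c with rfl | ⟨i, rfl⟩ | ⟨a, b, rfl⟩ | ⟨k, a, rfl⟩
      · rw [D_zero]
        exact iff_of_false hv.nbot hx.2.1
      · have hi := vc_gt i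
        rw [D_vc n i (by omega)]
        exact h1 i (by omega) hc
      · have ha := ic_left a b
        have hb := ic_right a b
        rw [D_ic, mem_imp hv, ih a ha (by omega), ih b hb (by omega), hx.2.2 a b hc]
      · rw [D_bc]
        exact h2 k a hc
  ext c
  constructor
  · rintro ⟨hc, h⟩
    exact (key c hc).1 h
  · intro h
    exact ⟨hx.1 c h, (key c (hx.1 c h)).2 h⟩

/-- the valuation of a type -/
def val (n : ℕ) (x : Set ℕ) : Fin n → Prop := fun i => vc i.1 ∈ x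

theorem ty_chg (hN : N < n) {v : Set (Fm (Fin n))} (hv : IsMCS v) {x : Set ℕ} (hx : Valid N x)
    (h : ∀ m, part m x = part m (ty N v)) : ty N (chg (val n x) v) = x := by
  refine ty_eq hN (chg_mcs _ hv) hx ?_ ?_
  · intro i hi _
    exact Iff.rfl
  · intro m χ hm
    rw [mem_chg_box, ← mem_part, h m, part_ty]
    exact ⟨fun h => ⟨hm, h⟩, fun h => h.2⟩

theorem part_chg (a : Fin n → Prop) (v : Set (Fm (Fin n))) (k : ℕ) :
    part k (ty N (chg a v)) = part k (ty N v) := by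
  ext χ
  rw [part_ty, part_ty, mem_chg_box]

theorem SameTh.part {k : ℕ} {v w : Set (Fm (Fin n))} (h : SameTh k v w) {i : ℕ} (hi : i < k) :
    part i (ty N v) = part i (ty N w) := by
  ext χ
  rw [part_ty, part_ty, h i hi]

theorem Acc.part_lt {k : ℕ} {v w : Set (Fm (Fin n))} (hv : IsMCS v) (hw : IsMCS w)
    (h : Acc k v w) {i : ℕ} (hi : i < k) : part i (ty N w) = part i (ty N v) :=
  (SameTh.part (Acc.same hv hw h) hi).symm

theorem Acc.part_sub {k : ℕ} {v w : Set (Fm (Fin n))} (hv : IsMCS v)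
    (h : Acc k v w) : part k (ty N v) ⊆ part k (ty N w) := by
  intro χ
  rw [part_ty, part_ty]
  exact fun h1 => ⟨h1.1, Acc.box le_rfl hv h h1.2⟩

/-- contents of the boxes are in the type of a successor -/
theorem Acc.part_mem {k : ℕ} {v w : Set (Fm (Fin n))} (h : Acc k v w) {χ : ℕ}
    (h1 : bc k χ ∈ ty N v) : χ ∈ ty N w := by
  have := bc_right k χ
  have h2 : χ ∈ part k (ty N v) := h1
  rw [part_ty] at h2
  exact ⟨by omega, h _ h2.2⟩

theorem Rfl.rf {k : ℕ} {v : Set (Fm (Fin n))} (h : Rfl k v) {i : ℕ} (hi : i < k) :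
    rf i (ty N v) := by
  intro χ h1
  have := bc_right i χ
  have h2 : χ ∈ GA.part i (ty N v) := h1
  rw [part_ty] at h2
  exact ⟨by omega, h i hi _ h2.2⟩

/-- the type of a point without `k`-successors -/
theorem triv_of_bot {k : ℕ} {v : Set (Fm (Fin n))} (hv : IsMCS v) (h : Fm.box k bot ∈ v) :
    triv N k (ty N v) := by
  intro m hm χ hχ
  rw [← mem_part, part_ty]
  exact ⟨hχ, box_of_bot hv hm h _⟩

/-- the type of a new root -/
theorem ty_root (hN : N < n) {ι : Type} (K : ℕ) (u : ι → Set (Fm (Fin n)))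
    (hu : ∀ i, IsMCS (u i)) (hs : ∀ i j, SameTh K (u i) (u j)) (hr : ∀ i, Rfl K (u i))
    {x : Set ℕ} (hx : Valid N x)
    (h1 : ∀ m < K, ∀ χ, bc m χ ≤ N → (bc m χ ∈ x ↔ ∀ i, bc m χ ∈ ty N (u i)))
    (h2 : ∀ χ, bc K χ ≤ N → (bc K χ ∈ x ↔ ∀ i, χ ∈ ty N (u i) ∧ bc K χ ∈ ty N (u i)))
    (h3 : triv N (K + 1) x) : ty N (root (val n x) K u) = x := by
  refine ty_eq hN (root_mcs _ K u hu hs hr) hx ?_ ?_
  · intro i hi _
    exact Iff.rfl
  · intro m χ hm
    rcases lt_trichotomy m K with h | rfl | h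
    · rw [h1 m h χ hm, mem_root_box]
      constructor
      · intro h4 i
        rw [← mem_part, part_ty]
        exact ⟨hm, h4.1 h i⟩
      · intro h4
        refine ⟨fun _ i => ?_, fun h5 => absurd h5 (ne_of_lt h)⟩
        have := h4 i
        rw [← mem_part, part_ty] at this
        exact this.2
    · rw [h2 χ hm, mem_root_box]
      have hb := bc_right m χ
      constructor
      · intro h4 i
        rw [← mem_part, part_ty, mem_ty]
        exact ⟨⟨by omega, (h4.2 rfl i).1⟩, hm, (h4.2 rfl i).2⟩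
      · intro h4
        refine ⟨fun h5 => absurd h5 (lt_irrefl m), fun _ i => ?_⟩
        have := h4 i
        rw [← mem_part, part_ty, mem_ty] at this
        exact ⟨this.1.2, this.2.2⟩
    · exact iff_of_true (root_high _ K u h _) (h3 m h χ hm)

/-! ### successors with the same part -/

theorem E.trans {k : ℕ} {u v w : Set (Fm (Fin n))} (hu : IsMCS u) (h1 : E N k u v)
    (h2 : E N k v w) : E N k u w :=
  ⟨h2.1, Acc.trans hu h1.2.1 h2.2.1, h2.2.2.trans h1.2.2⟩

theorem E_chg (a : Fin n → Prop) (v w : Set (Fm (Fin n))) (k : ℕ) :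
    E N k (chg a v) w ↔ E N k v w := by
  unfold E
  rw [part_chg, acc_chg]

/-- points with the same `k`-boxes have the same successors -/
theorem E_same {k : ℕ} {v v' : Set (Fm (Fin n))} (h : SameTh (k + 1) v v') (w : Set (Fm (Fin n))) :
    E N k v w ↔ E N k v' w := by
  unfold E
  rw [SameTh.part h (Nat.lt_succ_self k)]
  have : Acc k v w ↔ Acc k v' w :=
    forall_congr' fun θ => by rw [h k (Nat.lt_succ_self k) θ]
  rw [this]

/-- the sets of types and of parts are finite -/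
theorem finite_le (N : ℕ) : {x : Set ℕ | ∀ c ∈ x, c ≤ N}.Finite := by
  have h : (Set.Iic N).powerset.Finite := (Set.finite_Iic N).finite_subsets
  exact h.subset fun x hx c hc => hx c hc

theorem ty_le (v : Set (Fm (Fin n))) : ty N v ∈ {x : Set ℕ | ∀ c ∈ x, c ≤ N} := fun _ hc => hc.1

theorem part_le {k : ℕ} {x : Set ℕ} (hx : ∀ c ∈ x, c ≤ N) :
    part k x ∈ {x : Set ℕ | ∀ c ∈ x, c ≤ N} := by
  intro c hc
  have h1 := hx _ hc
  have := bc_right k c
  omega

theorem Dfn.memTy (c : ℕ) : Dfn fun v : Set (Fm (Fin n)) => c ∈ ty N v := by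
  by_cases hc : c ≤ N
  · exact (Dfn.mem (D n c)).congr fun v _ => by rw [mem_ty]; tauto
  · exact (Dfn.const False).congr fun v _ => by rw [mem_ty]; tauto

theorem Dfn.tyEq (x : Set ℕ) : Dfn fun v : Set (Fm (Fin n)) => ty N v = x := by
  by_cases hx : ∀ c ∈ x, c ≤ N
  · refine (Dfn.all_finite (Set.finite_Iic N)
      (P := fun c v => (c ∈ ty N v ↔ c ∈ x)) ?_).congr fun v _ => ?_
    · intro c _
      exact (Dfn.memTy c).iff (Dfn.const _)
    · constructor
      · rintro rfl c _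
        exact Iff.rfl
      · intro h
        ext c
        constructor
        · intro h1
          exact (h c h1.1).1 h1
        · intro h1
          exact (h c (hx c h1)).2 h1
  · refine (Dfn.const False).congr fun v _ => ?_
    refine iff_of_false ?_ id
    rintro rfl
    exact hx fun c hc => hc.1

/-- properties of the type are definable -/
theorem Dfn.tyProp (Q : Set ℕ → Prop) : Dfn fun v : Set (Fm (Fin n)) => Q (ty N v) := by
  refine (Dfn.ex_finite ((finite_le N).subset (Set.sep_subset _ Q))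
    (P := fun x v => ty N v = x) fun x _ => Dfn.tyEq x).congr fun v _ => ?_
  constructor
  · intro h
    exact ⟨ty N v, ⟨ty_le v, h⟩, rfl⟩
  · rintro ⟨x, ⟨_, h⟩, rfl⟩
    exact h

/-- quantification over the successors with the same part -/
theorem Dfn.allE (k : ℕ) {P : Set (Fm (Fin n)) → Prop} (hP : Dfn P) :
    Dfn fun v => ∀ w, E N k v w → P w := by
  refine (Dfn.all_finite (finite_le N) (P := fun S v => part k (ty N v) = S →
    ∀ w, IsMCS w → Acc k v w → (part k (ty N w) = S → P w)) ?_).congr fun v _ => ?_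
  · intro S _
    exact (Dfn.tyProp fun t => part k t = S).imp
      (Dfn.succ k ((Dfn.tyProp fun t => part k t = S).imp hP))
  · constructor
    · intro h S _ h1 w hw h2 h3
      exact h w ⟨hw, h2, h3.trans h1.symm⟩
    · intro h w hw
      exact h (part k (ty N v)) (part_le (ty_le v)) rfl w hw.1 hw.2.1 hw.2.2

/-- last successor with the same part -/
theorem Dfn.lastE (k : ℕ) {P : Set (Fm (Fin n)) → Prop} (hP : Dfn P) {v : Set (Fm (Fin n))}
    (hv : IsMCS v) (h : ∃ w, E N k v w ∧ P w) :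
    ∃ w, E N k v w ∧ P w ∧ ∀ z, E N k w z → ¬ P z := by
  obtain ⟨w, hw, h1, ⟨h2, h3⟩, h4⟩ := Dfn.last
    ((Dfn.tyProp fun t => part k t = part k (ty N v)).and hP) hv k (by
      obtain ⟨w, hw, h1⟩ := h
      exact ⟨w, hw.1, hw.2.1, hw.2.2, h1⟩)
  refine ⟨w, ⟨hw, h1, h2⟩, h3, ?_⟩
  intro z hz h5
  exact h4 z hz.1 hz.2.1 ⟨hz.2.2.trans h2, h5⟩

/-- types of successors with the same part are reflexive -/
theorem E.rf {k : ℕ} {v w : Set (Fm (Fin n))} (h : E N k v w) : rf k (ty N w) := by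
  intro χ h1
  have h2 : χ ∈ GA.part k (ty N w) := h1
  rw [h.2.2] at h2
  exact Acc.part_mem h.2.1 h2

/-- `(k+1)`-successors are in particular `k`-successors with the same part -/
theorem E_of_acc {k m : ℕ} (hm : k < m) {v w : Set (Fm (Fin n))} (hv : IsMCS v) (hw : IsMCS w)
    (h : Acc m v w) : E N k v w :=
  ⟨hw, Acc.mono hm.le hv h, Acc.part_lt hv hw h hm⟩

end types

/-! ### the points of a substitution -/

section K

variable {n : ℕ} {β : Type} {σ : Fin n → Fm β}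

theorem KS.acc {k : ℕ} {v w : Set (Fm (Fin n))} (hv : KS σ v) (hw : IsMCS w) (h : Acc k v w) :
    KS σ w := ⟨hw, fun _ hθ => h _ (hv.2 _ (Der.nec k hθ))⟩

theorem KS.lim {ι : Type} (𝒱 : Ultrafilter ι) (v : ι → Set (Fm (Fin n)))
    (h : ∀ i, KS σ (v i)) : KS σ (lim 𝒱 v) :=
  ⟨lim_mcs 𝒱 v fun i => (h i).1, fun θ hθ => mem_lim_of 𝒱 v θ fun i => (h i).2 θ hθ⟩

end K

end Pool.Agent.W897.GA
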