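import Mathlib
import Pool.Agent.W897.GA.Tools

/-!
# Admissible rules of GLP: the predicates of the contexts are definable
-/

set_option autoImplicit false

namespace Pool.Agent.W897.GA

open Pool.Agent.H557R3.GLP Pool.Agent.H557R3.GLP.Fm

variable {n N k : ℕ} {L : Set (Set ℕ)}
  {ch : Set ℕ → (Set (Fm (Fin n)) → Prop) × (Set (Fm (Fin n)) → Prop)}

theorem fin_sub (hL : ∀ x ∈ L, ∀ c ∈ x, c ≤ N) : {x | x ∈ L ∧ ¬ triv N (k + 1) x}.Finite :=
  (finite_le N).subset fun x hx => hL x hx.1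

theorem dfn_noE : Dfn fun v : Set (Fm (Fin n)) => ∀ w, ¬ E N k v w :=
  (Dfn.allE (N := N) k (Dfn.const False)).congr fun _ _ => Iff.rfl

theorem dfn_variant (hL : ∀ x ∈ L, ∀ c ∈ x, c ≤ N)
    (hc : ∀ x ∈ L, ¬ triv N (k + 1) x → Dfn (ch x).1 ∧ Dfn (ch x).2) :
    Dfn fun v => variant N k L ch v := by
  refine (Dfn.ex_finite (fin_sub (k := k) hL) (P := fun x v => part k x = part k (ty N v) ∧
      (∀ w, E N k v w → (ch x).2 w) ∧ (ch x).1 v) ?_).congr fun v _ => ?_
  · rintro x ⟨h1, h2⟩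
    exact (Dfn.tyProp fun t => part k x = part k t).and
      ((Dfn.allE k (hc x h1 h2).2).and (hc x h1 h2).1)
  · unfold variant
    constructor
    · rintro ⟨x, h1, h2, h3, h4, h5⟩
      exact ⟨x, ⟨h1, h2⟩, h3, h4, h5⟩
    · rintro ⟨x, ⟨h1, h2⟩, h3, h4, h5⟩
      exact ⟨x, h1, h2, h3, h4, h5⟩

theorem dfn_noVariant (hL : ∀ x ∈ L, ∀ c ∈ x, c ≤ N)
    (hc : ∀ x ∈ L, ¬ triv N (k + 1) x → Dfn (ch x).1 ∧ Dfn (ch x).2) :
    Dfn fun v => noVariant N k L ch v := by
  refine (Dfn.all_finite (fin_sub (k := k) hL) (P := fun x v => part k x = part k (ty N v) →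
      ¬ ∀ w, E N k v w → (ch x).2 w) ?_).congr fun v _ => ?_
  · rintro x ⟨h1, h2⟩
    exact (Dfn.tyProp fun t => part k x = part k t).imp (Dfn.allE k (hc x h1 h2).2).not
  · unfold noVariant
    constructor
    · rintro h x ⟨h1, h2⟩ h3
      exact h x h1 h2 h3
    · rintro h x h1 h2 h3
      exact h x ⟨h1, h2⟩ h3

theorem dfnK : S_Dfn := by
  intro n N k R L ch hL hc
  constructor
  · refine (((Dfn.tyProp fun t => t ∈ L).and (dfn_noE.or ((dfn_variant hL hc).or
      ((dfn_noVariant hL hc).and (Dfn.mem (box (k + 1) bot)))))) : Dfn (kap N k L ch))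
  · exact ((Dfn.tyProp fun t => t ∈ R).and ((Dfn.tyProp fun t => t ∈ L).and
      (dfn_noE.or (dfn_variant hL hc))) : Dfn (del N k R L ch))

theorem dfnTop : S_DfnTop := by
  intro n N Θ ch fc hL hc hf
  have h1 : Dfn fun v : Set (Fm (Fin n)) => fc (part 0 (ty N v)) v := by
    refine (Dfn.ex_finite (finite_le N) (P := fun S v => part 0 (ty N v) = S ∧ fc S v) ?_).congr
      fun v _ => ?_
    · intro S _
      exact (Dfn.tyProp fun t => part 0 t = S).and (hf S)
    · constructor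
      · intro h
        exact ⟨_, part_le (ty_le v), rfl, h⟩
      · rintro ⟨S, _, rfl, h⟩
        exact h
  exact ((Dfn.tyProp fun t => t ∈ Θ).and (dfn_noE.or ((dfn_variant hL hc).or
    ((dfn_noVariant hL hc).and h1))) : Dfn (top0 N Θ ch fc))

end Pool.Agent.W897.GA
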