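import Mathlib
import Pool.Agent.W897.GA.Tools

/-!
# Admissible rules of GLP: extension properties
-/

set_option autoImplicit false

namespace Pool.Agent.W897.GA

open Pool.Agent.H557R3.GLP Pool.Agent.H557R3.GLP.Fm

/-- a tight type gives the type of a point without `(k+1)`-successors -/
theorem tight_ty {n N k : ℕ} (hN : N < n) {y : Set (Fm (Fin n))} (hy : IsMCS y)
    (hbot : Fm.box (k + 1) bot ∈ y) {t : Set ℕ} (ht : Valid N t)
    (h1 : ∀ i < k, part i t = part i (ty N y))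
    (h2 : tight N k {x | ∃ w, IsMCS w ∧ Acc k y w ∧ ty N w = x} t) :
    ty N (chg (val n t) y) = t := by
  refine ty_chg hN hy ht ?_
  intro m
  rcases lt_trichotomy m k with hm | rfl | hm
  · exact h1 m hm
  · ext χ
    rw [part_ty, mem_part]
    constructor
    · intro h
      have hle := ht.1 _ h
      refine ⟨hle, ?_⟩
      rw [mem_box hy]
      intro w hw hR
      have h3 := ((h2.1 χ hle).1 h (ty N w) ⟨w, hw, hR, rfl⟩).1
      exact h3.2
    · rintro ⟨hle, h⟩
      rw [h2.1 χ hle]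
      rintro x ⟨w, hw, hR, rfl⟩
      have hb := bc_right m χ
      rw [mem_ty, mem_ty, D_bc]
      exact ⟨⟨by omega, hR _ h⟩, hle, Acc.box le_rfl hy hR h⟩
  · ext χ
    rw [part_ty, mem_part]
    constructor
    · intro h
      exact ⟨ht.1 _ h, box_of_bot hy hm hbot _⟩
    · rintro ⟨hle, -⟩
      exact h2.2 m hm χ hle

theorem bot_of_noE {n N k : ℕ} {y : Set (Fm (Fin n))} (hy : IsMCS y)
    (h : ∀ w, ¬ E N k y w) : Fm.box (k + 1) bot ∈ y := by
  rw [box_bot_iff hy]
  intro w hw hR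
  exact h w (E_of_acc (Nat.lt_succ_self k) hy hw hR)

theorem variant_chg {n N k : ℕ} {L : Set (Set ℕ)}
    {ch : Set ℕ → (Set (Fm (Fin n)) → Prop) × (Set (Fm (Fin n)) → Prop)}
    (a : Fin n → Prop) (y : Set (Fm (Fin n))) (h : noVariant N k L ch y) :
    noVariant N k L ch (chg a y) := by
  intro x hx hnt hp hE
  rw [part_chg] at hp
  exact h x hx hnt hp fun w hw => hE w ((E_chg a y w k).2 hw)

/-- the extension property when a variant applies -/
theorem ep_variant {n N k : ℕ} {R L : Set (Set ℕ)}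
    {ch : Set ℕ → (Set (Fm (Fin n)) → Prop) × (Set (Fm (Fin n)) → Prop)}
    {RC LC : Set ℕ → Set (Set ℕ)} (hC : Child n N k R L ch RC LC) {y : Set (Fm (Fin n))}
    (hy : IsMCS y) (hLy : ∀ x ∈ L, ∀ i < k, part i x = part i (ty N y))
    (h : ¬ noVariant N k L ch y) :
    ∃ a : Fin n → Prop, ty N (chg a y) ∈ L ∧ variant N k L ch (chg a y) := by
  unfold noVariant at h
  push Not at h
  obtain ⟨x, hx, hnt, hp, hE⟩ := h
  have C := hC.ctx x hx hnt
  obtain ⟨a, ha⟩ := C.ep y hy (by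
    intro x' hx' i hi
    obtain ⟨h6, h7⟩ := hC.hL x hx hnt x' hx'
    rcases Nat.lt_succ_iff_lt_or_eq.1 hi with hi | rfl
    · exact hLy x' h6 i hi
    · rw [h7, hp]) (by
    intro w hw hR
    exact hE w (E_of_acc (Nat.lt_succ_self k) hy hw hR))
  refine ⟨a, (hC.hL x hx hnt _ (C.kL _ (chg_mcs a hy) ha)).1, x, hx, hnt, ?_, ?_, ha⟩
  · rw [part_chg]
    exact hp
  · intro w hw
    exact hE w ((E_chg a y w k).1 hw)

/-- Extension property of the variant contexts. -/
theorem ep : S_ep := by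
  intro n N k R L ch RC LC hN hval hRL hP hC y hy hLy hdel
  have htight : ∃ t ∈ L, tight N k {x | ∃ w, IsMCS w ∧ Acc k y w ∧ ty N w = x} t := by
    refine hP.tp _ ?_
    rintro x ⟨w, hw, hR, rfl⟩
    exact (hdel w hw hR).1
  obtain ⟨t, ht, htt⟩ := htight
  by_cases hE : ∀ w, ¬ E N k y w
  · have hty := tight_ty hN hy (bot_of_noE hy hE) (hval t ht) (fun i hi => hLy t ht i hi) htt
    refine ⟨val n t, by rw [hty]; exact ht, Or.inl fun w hw => ?_⟩
    exact hE w ((E_chg _ y w k).1 hw)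
  by_cases hV : noVariant N k L ch y
  swap
  · obtain ⟨a, h1, h2⟩ := ep_variant hC hy hLy hV
    exact ⟨a, h1, Or.inr (Or.inl h2)⟩
  push Not at hE
  obtain ⟨w0, hw0⟩ := hE
  have hbot : Fm.box (k + 1) bot ∈ y := by
    rw [box_bot_iff hy]
    intro w hw hR
    have hs : SameTh (k + 1) y w := Acc.same hy hw hR
    obtain ⟨h1, h2, h3⟩ := hdel w hw (Acc.mono (Nat.le_succ k) hy hR)
    rcases h3 with h3 | h3
    · exact h3 w0 ((E_same hs w0).1 hw0)
    · obtain ⟨x, hx, hnt, hp, hEx, -⟩ := h3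
      refine hV x hx hnt (hp.trans (SameTh.part hs (Nat.lt_succ_self k)).symm) ?_
      intro z hz
      exact hEx z ((E_same hs z).1 hz)
  have hty := tight_ty hN hy hbot (hval t ht) (fun i hi => hLy t ht i hi) htt
  exact ⟨val n t, by rw [hty]; exact ht, Or.inr (Or.inr ⟨variant_chg _ y hV, hbot⟩)⟩

/-- Extension property of the top level. -/
theorem epTop : S_epTop := by
  intro n N Θ ch RC LC fc LF hN hval hP hC hF y hy htop
  have htight : ∃ t ∈ Θ, tight N 0 {x | ∃ w, IsMCS w ∧ Acc 0 y w ∧ ty N w = x} t := by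
    refine hP.tp _ ?_
    rintro x ⟨w, hw, hR, rfl⟩
    exact (htop w hw hR).1
  obtain ⟨t, ht, htt⟩ := htight
  by_cases hE : ∀ w, ¬ E N 0 y w
  · have hty := tight_ty hN hy (bot_of_noE hy hE) (hval t ht)
      (fun i hi => absurd hi (Nat.not_lt_zero i)) htt
    refine ⟨val n t, by rw [hty]; exact ht, Or.inl fun w hw => ?_⟩
    exact hE w ((E_chg _ y w 0).1 hw)
  by_cases hV : noVariant N 0 Θ ch y
  swap
  · obtain ⟨a, h1, h2⟩ := ep_variant hC hy (fun x _ i hi => absurd hi (Nat.not_lt_zero i)) hV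
    exact ⟨a, h1, Or.inr (Or.inl h2)⟩
  push Not at hE
  obtain ⟨w0, hw0⟩ := hE
  have hs0 : part 0 (ty N w0) = part 0 (ty N y) := hw0.2.2
  obtain ⟨hLF, hC1⟩ := hF (ty N w0) (htop w0 hw0.1 hw0.2.1).1 hw0.rf
  rw [hs0] at hLF hC1
  obtain ⟨a, ha⟩ := hC1.ep y hy (by
    intro x hx i hi
    obtain rfl : i = 0 := by omega
    exact (hLF x hx).2) (by
    intro w hw hR
    have hR0 : Acc 0 y w := Acc.mono (Nat.zero_le _) hy hR
    have hs : SameTh 1 y w := Acc.same hy hw hR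
    have hp : part 0 (ty N w) = part 0 (ty N y) := (SameTh.part hs Nat.one_pos).symm
    refine ⟨?_, fun i hi => Rfl.rf (acc_rfl hy hw hR) hi⟩
    obtain ⟨h1, h2 | h2 | h2⟩ := htop w hw hR0
    · exact absurd ((E_same hs w0).1 hw0) (h2 w0)
    · obtain ⟨x, hx, hnt, hpx, hEx, -⟩ := h2
      refine absurd ?_ (hV x hx hnt (hpx.trans hp))
      intro z hz
      exact hEx z ((E_same hs z).1 hz)
    · rw [hp] at h2
      exact h2.2)
  refine ⟨a, (hLF _ (hC1.kL _ (chg_mcs a hy) ha)).1, Or.inr (Or.inr ⟨variant_chg a y hV, ?_⟩)⟩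
  rw [part_chg]
  exact ha

end Pool.Agent.W897.GA
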