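import Mathlib
import Pool.Agent.W897.GA.EP
import Pool.Agent.W897.GA.DfnK

/-!
# Admissible rules of GLP: final contexts
-/

set_option autoImplicit false

namespace Pool.Agent.W897.GA

open Pool.Agent.H557R3.GLP Pool.Agent.H557R3.GLP.Fm

theorem fin : S_F := by
  intro n N f
  induction f with
  | zero =>
    intro k L hN hk hval hF
    refine ⟨fun v => ty N v ∈ L, Dfn.tyProp fun t => t ∈ L, fun v _ h => h, ?_⟩
    intro y hy hLy _
    obtain ⟨x, hx⟩ : L.Nonempty := hF
    refine ⟨val n x, ?_⟩
    have : ty N (chg (val n x) y) = x := by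
      refine ty_chg hN hy (hval x hx) ?_
      intro m
      by_cases hm : m < k
      · exact hLy x hx m hm
      · ext χ
        have hb := bc_left m χ
        constructor
        · intro h
          have := (hval x hx).1 _ h
          omega
        · intro h
          have := (ty_valid (N := N) hy).1 _ h
          omega
    show ty N (chg (val n x) y) ∈ L
    rw [this]
    exact hx
  | succ f ih =>
    intro k L hN hk hval hF
    obtain ⟨htp, hch⟩ := hF
    classical
    -- the children
    have key : ∀ S : Set ℕ, ∃ (L' : Set (Set ℕ)) (κ : Set (Fm (Fin n)) → Prop), Dfn κ ∧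
        ((∃ s ∈ L, (∀ i < k + 1, rf i s) ∧ part k s = S) →
          (∀ y ∈ L', y ∈ L ∧ part k y = S) ∧ FCtx n N (k + 1) L' κ) := by
      intro S
      by_cases hS : ∃ s ∈ L, (∀ i < k + 1, rf i s) ∧ part k s = S
      · obtain ⟨s, hs, h1, rfl⟩ := hS
        obtain ⟨L', h2, h3⟩ := hch s hs h1
        obtain ⟨κ, hκ⟩ := ih (k + 1) L' hN (by omega) (fun x hx => hval x (h2 x hx).1) h3
        exact ⟨L', κ, hκ.dfn, fun _ => ⟨h2, hκ⟩⟩
      · exact ⟨∅, fun _ => False, Dfn.const False, fun h => absurd h hS⟩
    choose LF κF hdfn hctx using key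
    refine ⟨fun v => ty N v ∈ L ∧ ((∀ w, ¬ E N k v w) ∨ κF (part k (ty N v)) v), ?_,
      fun v _ h => h.1, ?_⟩
    · have h1 : Dfn fun v : Set (Fm (Fin n)) => κF (part k (ty N v)) v := by
        refine (Dfn.ex_finite (finite_le N)
          (P := fun S v => part k (ty N v) = S ∧ κF S v) ?_).congr fun v _ => ?_
        · intro S _
          exact (Dfn.tyProp fun t => part k t = S).and (hdfn S)
        · constructor
          · intro h
            exact ⟨_, part_le (ty_le v), rfl, h⟩
          · rintro ⟨S, _, rfl, h⟩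
            exact h
      exact (Dfn.tyProp fun t => t ∈ L).and (dfn_noE.or h1)
    · intro y hy hLy hκ
      have htight : ∃ t ∈ L, tight N k {x | ∃ w, IsMCS w ∧ Acc k y w ∧ ty N w = x} t := by
        refine htp _ ?_
        rintro x ⟨w, hw, hR, rfl⟩
        exact ⟨(hκ w hw hR).1.1, (hκ w hw hR).2⟩
      obtain ⟨t, ht, htt⟩ := htight
      by_cases hE : ∀ w, ¬ E N k y w
      · have hty := tight_ty hN hy (bot_of_noE hy hE) (hval t ht) (fun i hi => hLy t ht i hi) htt
        refine ⟨val n t, by rw [hty]; exact ht, Or.inl fun w hw => ?_⟩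
        exact hE w ((E_chg _ y w k).1 hw)
      push Not at hE
      obtain ⟨w0, hw0⟩ := hE
      have hw0L := (hκ w0 hw0.1 hw0.2.1)
      obtain ⟨hLF, hC⟩ := hctx (part k (ty N y)) ⟨ty N w0, hw0L.1.1, by
        intro i hi
        rcases Nat.lt_succ_iff_lt_or_eq.1 hi with hi | rfl
        · exact hw0L.2 i hi
        · exact hw0.rf, hw0.2.2⟩
      obtain ⟨a, ha⟩ := hC.ep y hy (by
        intro x hx i hi
        rcases Nat.lt_succ_iff_lt_or_eq.1 hi with hi | rfl
        · exact hLy x (hLF x hx).1 i hi
        · exact (hLF x hx).2) (by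
        intro w hw hR
        have hRk : Acc k y w := Acc.mono (Nat.le_succ k) hy hR
        have hs : SameTh (k + 1) y w := Acc.same hy hw hR
        have hp : part k (ty N w) = part k (ty N y) := (SameTh.part hs (Nat.lt_succ_self k)).symm
        refine ⟨?_, fun i hi => Rfl.rf (acc_rfl hy hw hR) hi⟩
        obtain ⟨h1, h2 | h2⟩ := (hκ w hw hRk).1
        · exact absurd ((E_same hs w0).1 hw0) (h2 w0)
        · rw [hp] at h2
          exact h2)
      refine ⟨a, (hLF _ (hC.kL _ (chg_mcs a hy) ha)).1, Or.inr ?_⟩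
      show κF (part k (ty N (chg a y))) (chg a y)
      rw [part_chg]
      exact ha

end Pool.Agent.W897.GA
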