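import Mathlib
import Pool.Agent.W897.GA.Tools

/-!
# Admissible rules of GLP: realisation of types
-/

set_option autoImplicit false

namespace Pool.Agent.W897.GA

open Pool.Agent.H557R3.GLP Pool.Agent.H557R3.GLP.Fm

/-- the first two disjuncts of `kap` -/
def kv {n : ℕ} (N k : ℕ) (L : Set (Set ℕ))
    (ch : Set ℕ → (Set (Fm (Fin n)) → Prop) × (Set (Fm (Fin n)) → Prop))
    (v : Set (Fm (Fin n))) : Prop :=
  ty N v ∈ L ∧ ((∀ w, ¬ E N k v w) ∨ variant N k L ch v)

theorem part_ncard {N k : ℕ} {x x' : Set ℕ} (hx' : ∀ c ∈ x', c ≤ N)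
    (h : part k x ⊂ part k x') :
    N + 1 - (part k x').ncard < N + 1 - (part k x).ncard := by
  have hf : (part k x').Finite := (Set.finite_Iic N).subset (part_le hx')
  have h1 := Set.ncard_lt_ncard h hf
  have h2 : (part k x').ncard ≤ (Set.Iic N).ncard :=
    Set.ncard_le_ncard (part_le hx') (Set.finite_Iic N)
  have h3 : (Set.Iic N).ncard = N + 1 := by
    rw [← Finset.coe_Iic, Set.ncard_coe_finset, Nat.card_Iic]
  omega

/-- General realisation theorem with an abstract class `G` of points. -/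
theorem real_gen (hZ : S_Zorn) (n N k : ℕ) (R L : Set (Set ℕ))
    (ch : Set ℕ → (Set (Fm (Fin n)) → Prop) × (Set (Fm (Fin n)) → Prop))
    (RC LC : Set ℕ → Set (Set ℕ)) (hN : N < n) (hval : ∀ x ∈ L, Valid N x) (hRL : R ⊆ L)
    (hP : RP0 N k R L) (hC : Child n N k R L ch RC LC) (G : Set (Fm (Fin n)) → Prop)
    (Gm : ∀ v, G v → IsMCS v)
    (Gt : ∀ v, G v → ∀ x ∈ L, ∀ i < k, part i x = part i (ty N v))
    (Gs : ∀ v w, G v → G w → SameTh k v w)
    (Gl : ∀ (ι : Type) (𝒱 : Ultrafilter ι) (v : ι → Set (Fm (Fin n))), (∀ i, G (v i)) →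
      G (lim 𝒱 v))
    (Gr : ∀ v, G v → del N k R L ch v → Rfl k v)
    (Groot : ∀ (ι : Type) (_ : Finite ι) (_ : Nonempty ι) (z : ι → Set (Fm (Fin n)))
      (a : Fin n → Prop), (∀ i, G (z i)) → (∀ i, Rfl k (z i)) → kv N k L ch (root a k z) →
      G (root a k z))
    (Gsame : ∀ u v, G u → IsMCS v → SameTh (k + 1) v u → kv N k L ch v → G v)
    (Gemp : ∀ x ∈ L, triv N k x → ∃ v, G v ∧ ty N v = x ∧ Fm.box k bot ∈ v) :
    ∀ x ∈ L, ∃ v, G v ∧ ty N v = x ∧ kv N k L ch v := by
  -- step 1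
  have step1 : ∀ x ∈ L, triv N (k + 1) x →
      (∀ x' ∈ L, part k x ⊂ part k x' → ∃ v, G v ∧ ty N v = x' ∧ kv N k L ch v) →
      ∃ v, G v ∧ ty N v = x ∧ (∀ w, ¬ E N k v w) ∧ Fm.box (k + 1) bot ∈ v := by
    intro x hx htr IH
    by_cases hall : ∀ χ, bc k χ ≤ N → bc k χ ∈ x
    · obtain ⟨v, h1, h2, h3⟩ := Gemp x hx (by
        intro m hm χ hχ
        rcases hm.eq_or_lt with rfl | hm
        · exact hall χ hχ
        · exact htr m hm χ hχ)
      refine ⟨v, h1, h2, ?_, box_of_bot (Gm v h1) (Nat.le_succ k) h3 _⟩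
      intro w hw
      exact (box_bot_iff (Gm v h1) k).1 h3 w hw.1 hw.2.1
    · -- the family of witnesses
      push Not at hall
      have key : ∀ i : {χ // bc k χ ≤ N ∧ bc k χ ∉ x}, ∃ z, G z ∧ del N k R L ch z ∧
          i.1 ∉ ty N z ∧ bc k i.1 ∈ ty N z ∧
          ∀ χ', bc k χ' ∈ x → χ' ∈ ty N z ∧ bc k χ' ∈ ty N z := by
        rintro ⟨χ, h1, h2⟩
        obtain ⟨x', h3, h4, h5, h6⟩ := hP.wit x hx χ h1 h2
        obtain ⟨z, h7, h8, h9⟩ := IH x' (hRL h3) ⟨fun χ' h => (h6 χ' h).2, fun h => h2 (h h5)⟩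
        subst h8
        exact ⟨z, h7, ⟨h3, h9.1, h9.2⟩, h4, h5, h6⟩
      choose z h1 h2 h3 h4 h5 using key
      have hfin : Finite {χ // bc k χ ≤ N ∧ bc k χ ∉ x} := by
        refine Set.Finite.to_subtype ((Set.finite_Iic N).subset ?_)
        rintro χ ⟨h, -⟩
        have := bc_right k χ
        exact Set.mem_Iic.2 (by omega)
      have hne : Nonempty {χ // bc k χ ≤ N ∧ bc k χ ∉ x} := by
        obtain ⟨χ, h⟩ := hall
        exact ⟨⟨χ, h⟩⟩
      have hz : ∀ i, IsMCS (z i) := fun i => Gm _ (h1 i)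
      have hr : ∀ i, Rfl k (z i) := fun i => Gr _ (h1 i) (h2 i)
      have hs : ∀ i j, SameTh k (z i) (z j) := fun i j => Gs _ _ (h1 i) (h1 j)
      have hvm : IsMCS (root (val n x) k z) := root_mcs _ k z hz hs hr
      have hty : ty N (root (val n x) k z) = x := by
        refine ty_root hN k z hz hs hr (hval x hx) ?_ ?_ htr
        · intro m hm χ hχ
          have h6 : ∀ i, part m x = part m (ty N (z i)) := fun i => Gt _ (h1 i) x hx m hm
          constructor
          · intro h i
            rw [← mem_part, ← h6 i]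
            exact h
          · intro h
            obtain ⟨i⟩ := hne
            rw [← mem_part, h6 i]
            exact h i
        · intro χ hχ
          constructor
          · intro h i
            exact h5 i χ h
          · intro h
            by_contra hcon
            exact h3 ⟨χ, hχ, hcon⟩ (h ⟨χ, hχ, hcon⟩).1
      have hnoE : ∀ w, ¬ E N k (root (val n x) k z) w := by
        intro w hw
        obtain ⟨i, hi⟩ := acc_root_finite _ k z hz hw.1 hw.2.1
        have h6 : part k (ty N (z i)) ⊆ part k (ty N w) := by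
          rcases hi with rfl | hi
          · exact subset_rfl
          · exact Acc.part_sub (hz i) hi
        rw [hw.2.2, hty] at h6
        exact i.2.2 (h6 (h4 i))
      have hkv : kv N k L ch (root (val n x) k z) := ⟨by rw [hty]; exact hx, Or.inl hnoE⟩
      exact ⟨_, Groot _ hfin hne z _ h1 hr hkv, hty, hnoE, root_high _ k z (Nat.lt_succ_self k) _⟩
  -- the induction
  have main : ∀ m, ∀ x ∈ L, N + 1 - (part k x).ncard = m →
      ∃ v, G v ∧ ty N v = x ∧ kv N k L ch v := by
    intro m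
    induction m using Nat.strong_induction_on with
    | _ m ih =>
      intro x hx hm
      have IH : ∀ x' ∈ L, part k x ⊂ part k x' → ∃ v, G v ∧ ty N v = x' ∧ kv N k L ch v := by
        intro x' hx' h
        exact ih _ (by rw [← hm]; exact part_ncard (hval x' hx').1 h) x' hx' rfl
      by_cases hnt : triv N (k + 1) x
      · obtain ⟨v, h1, h2, h3, -⟩ := step1 x hx hnt IH
        exact ⟨v, h1, h2, by rw [h2]; exact hx, Or.inl h3⟩
      -- step 2
      obtain ⟨b, hb, hbt⟩ := hC.tr x hx hnt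
      obtain ⟨hbR, hbp, hbr⟩ := hC.hR x hx hnt b hb
      obtain ⟨w', hw1, hw2, hw3, hw4⟩ := step1 b (hRL hbR) hbt (by rw [hbp]; exact IH)
      have C := hC.ctx x hx hnt
      set δ := (ch x).2 with hδ
      set P : Set (Fm (Fin n)) → Prop := fun v =>
        G v ∧ part k (ty N v) = part k x ∧ δ v ∧ ∀ w, E N k v w → δ w with hPdef
      have hPvar : ∀ v, IsMCS v → part k (ty N v) = part k x → δ v → (∀ w, E N k v w → δ w) →
          del N k R L ch v := by
        intro v hv h1 h2 h3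
        have h4 := C.dR v hv h2
        obtain ⟨h5, -, -⟩ := hC.hR x hx hnt _ h4
        exact ⟨h5, hRL h5, Or.inr ⟨x, hx, hnt, h1.symm, h3, C.dk v hv h2⟩⟩
      have hPdel : ∀ v, P v → del N k R L ch v := fun v hv =>
        hPvar v (Gm v hv.1) hv.2.1 hv.2.2.1 hv.2.2.2
      have hPw : P w' := by
        refine ⟨hw1, by rw [hw2]; exact hbp, ?_, fun w hw => absurd hw (hw3 w)⟩
        exact (C.base w' (Gm _ hw1) hw4).2 (by rw [hw2]; exact hb)
      obtain ⟨u1, hu1, hmax⟩ := hZ (Fin n) k P (fun v hv => Gm v hv.1) ⟨w', hPw⟩ (by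
        intro ι 𝒱 v hv
        have hvm : ∀ i, IsMCS (v i) := fun i => Gm _ (hv i).1
        refine ⟨Gl ι 𝒱 v fun i => (hv i).1, ?_, ?_, ?_⟩
        · exact (Dfn.tyProp (n := n) (N := N) fun t => part k t = part k x).lim 𝒱 v hvm
            fun i => (hv i).2.1
        · exact C.dfnδ.lim 𝒱 v hvm fun i => (hv i).2.2.1
        · exact (Dfn.allE k C.dfnδ).lim 𝒱 v hvm fun i => (hv i).2.2.2)
      have hu1m := Gm u1 hu1.1
      have hu1r : Rfl k u1 := Gr u1 hu1.1 (hPdel u1 hu1)
      have hu1rf : rf k (ty N u1) := (hC.hR x hx hnt _ (C.dR u1 hu1m hu1.2.2.1)).2.2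
      -- the new root
      have hacc : Acc k u1 u1 := by
        set z : Unit → Set (Fm (Fin n)) := fun _ => u1 with hz
        have hzm : ∀ i, IsMCS (z i) := fun _ => hu1m
        have hzs : ∀ i j, SameTh k (z i) (z j) := fun _ _ => SameTh.refl _
        have hzr : ∀ i, Rfl k (z i) := fun _ => hu1r
        have hv1m : IsMCS (root (val n b) k z) := root_mcs _ k z hzm hzs hzr
        have hty : ty N (root (val n b) k z) = b := by
          refine ty_root hN k z hzm hzs hzr (hval b (hRL hbR)) ?_ ?_ hbt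
          · intro m hm χ hχ
            have h6 : part m b = part m (ty N u1) := Gt _ hu1.1 b (hRL hbR) m hm
            rw [← mem_part, h6]
            exact ⟨fun h _ => h, fun h => h ()⟩
          · intro χ hχ
            rw [← mem_part, hbp, ← hu1.2.1]
            exact ⟨fun h _ => ⟨hu1rf χ h, h⟩, fun h => (h ()).2⟩
        have hE : ∀ w, E N k (root (val n b) k z) w → δ w := by
          intro w hw
          rcases acc_root_single (val n b) k hu1m hw.1 hw.2.1 with rfl | h
          · exact hu1.2.2.1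
          · refine hu1.2.2.2 w ⟨hw.1, h, ?_⟩
            rw [hw.2.2, hty, hbp, hu1.2.1]
        have hδ1 : δ (root (val n b) k z) :=
          (C.base _ hv1m (root_high _ k z (Nat.lt_succ_self k) _)).2 (by rw [hty]; exact hb)
        have hp : part k (ty N (root (val n b) k z)) = part k x := by rw [hty, hbp]
        have hdel := hPvar _ hv1m hp hδ1 hE
        have hP1 : P (root (val n b) k z) :=
          ⟨Groot Unit inferInstance inferInstance z _ (fun _ => hu1.1) hzr ⟨hdel.2.1, hdel.2.2⟩,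
            hp, hδ1, hE⟩
        have h7 : Acc k (root (val n b) k z) u1 := root_acc _ k z ()
        rcases hmax _ hP1 h7 with h8 | h8
        · rw [h8] at h7
          exact h7
        · exact Acc.trans hu1m h8 h7
      -- realisation in the child
      have hsame : ∀ v, SameTh (k + 1) v u1 → (∀ w, E N k v w → δ w) := by
        intro v hv w hw
        exact hu1.2.2.2 w ((E_same hv w).1 hw)
      have hpart : ∀ v, SameTh (k + 1) v u1 → part k (ty N v) = part k x := fun v hv =>
        (SameTh.part hv (Nat.lt_succ_self k)).trans hu1.2.1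
      obtain ⟨v, hv1, hv2, hv3, hv4, hv5⟩ := C.real (by omega) u1 hu1m (by
        intro x' hx' i hi
        obtain ⟨h6, h7⟩ := hC.hL x hx hnt x' hx'
        rcases Nat.lt_succ_iff_lt_or_eq.1 hi with hi | rfl
        · exact Gt _ hu1.1 x' h6 i hi
        · rw [h7, hu1.2.1]) hu1.2.2.1 (by
        intro v hv h1 h2
        have h3 := hPvar v hv (hpart v h1) h2 (hsame v h1)
        have hPv : P v :=
          ⟨Gsame u1 v hu1.1 hv h1 ⟨h3.2.1, h3.2.2⟩, hpart v h1, h2, hsame v h1⟩
        have h4 : Acc k v u1 := fun θ hθ => hacc θ ((h1 k (Nat.lt_succ_self k) θ).1 hθ)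
        have h5 : Acc k u1 v := by
          rcases hmax v hPv h4 with h5 | h5
          · rw [h5]; exact hacc
          · exact h5
        intro i hi θ hθ
        rcases Nat.lt_succ_iff_lt_or_eq.1 hi with hi | rfl
        · exact Gr v hPv.1 h3 i hi θ hθ
        · exact h5 θ ((h1 i hi θ).1 hθ)) x (hC.mem x hx hnt)
      have hkv : kv N k L ch v :=
        ⟨by rw [hv3]; exact hx, Or.inr ⟨x, hx, hnt, (hpart v hv2).symm, hsame v hv2, hv4⟩⟩
      exact ⟨v, Gsame u1 v hu1.1 hv1 hv2 hkv, hv3, hkv⟩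
  intro x hx
  exact main _ x hx rfl

/-- Realisation in variant contexts. -/
theorem real (hZ : S_Zorn) : S_real := by
  intro n N k R L ch RC LC hN hval hRL hP hC hk u hu hLu hdu hmax x hx
  have hur : Rfl k u := hmax u hu (SameTh.refl u) hdu
  obtain ⟨v, hv1, hv2, hv3⟩ := real_gen hZ n N k R L ch RC LC hN hval hRL hP hC
    (fun v => IsMCS v ∧ SameTh k v u) (fun v hv => hv.1)
    (by
      intro v hv x hx i hi
      rw [hLu x hx i hi]
      exact (SameTh.part hv.2 hi).symm)
    (fun v w hv hw => hv.2.trans hw.2.symm)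
    (fun ι 𝒱 v hv => ⟨lim_mcs 𝒱 v fun i => (hv i).1, lim_same 𝒱 v k u fun i => (hv i).2⟩)
    (fun v hv h => hmax v hv.1 hv.2 h)
    (by
      rintro ι _ ⟨i⟩ z a hz hr _
      have hs : ∀ i j, SameTh k (z i) (z j) := fun i j => (hz i).2.trans (hz j).2.symm
      exact ⟨root_mcs a k z (fun i => (hz i).1) hs hr, (root_same a k z hs i).trans (hz i).2⟩)
    (fun u' v hu' hv h _ => ⟨hv, (h.mono (Nat.le_succ k)).trans hu'.2⟩)
    (by
      intro x hx htr
      obtain ⟨j, rfl⟩ : ∃ j, k = j + 1 := ⟨k - 1, by omega⟩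
      set z : Unit → Set (Fm (Fin n)) := fun _ => u with hz
      have hvm : IsMCS (root (val n x) j z) := root_mcs _ j z (fun _ => hu)
        (fun _ _ => SameTh.refl _) (fun _ => hur.mono (Nat.le_succ j))
      have hsame : SameTh (j + 1) (root (val n x) j z) u := by
        intro i hi θ
        rcases Nat.lt_succ_iff_lt_or_eq.1 hi with hi | rfl
        · exact root_same (val n x) j z (fun _ _ => SameTh.refl _) () i hi θ
        · rw [mem_root_box]
          constructor
          · intro h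
            exact (h.2 rfl ()).2
          · intro h
            exact ⟨fun h' => absurd h' (lt_irrefl i), fun _ _ => ⟨hur i hi θ h, h⟩⟩
      refine ⟨root (val n x) j z, ⟨hvm, hsame⟩, ?_, root_high _ j z (Nat.lt_succ_self j) _⟩
      refine ty_eq hN hvm (hval x hx) (fun i hi _ => Iff.rfl) ?_
      intro m χ hm
      by_cases hmj : m < j + 1
      · rw [hsame m hmj, ← mem_part, hLu x hx m hmj, part_ty]
        exact ⟨fun h => ⟨hm, h⟩, fun h => h.2⟩
      · exact iff_of_true (root_high _ j z (by omega) _) (htr m (by omega) χ hm)) x hx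
  refine ⟨v, hv1.1, hv1.2, hv2, ⟨hv3.1, ?_⟩, fun hxR => ⟨by rw [hv2]; exact hxR, hv3.1, hv3.2⟩⟩
  rcases hv3.2 with h | h
  · exact Or.inl h
  · exact Or.inr (Or.inl h)

/-- Realisation at the top level. -/
theorem realTop (hZ : S_Zorn) : S_realTop := by
  intro n N Θ ch RC LC fc hN hval hP hC hdfn x hx
  have htop : ∀ v, kv N 0 Θ ch v → top0 N Θ ch fc v := by
    rintro v ⟨h1, h2 | h2⟩
    · exact ⟨h1, Or.inl h2⟩
    · exact ⟨h1, Or.inr (Or.inl h2)⟩
  have groot : ∀ (ι : Type) (_ : Finite ι) (z : ι → Set (Fm (Fin n)))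
      (a : Fin n → Prop), (∀ i, IsMCS (z i) ∧ top0 N Θ ch fc (z i) ∧
        ∀ w, IsMCS w → Acc 0 (z i) w → top0 N Θ ch fc w) → kv N 0 Θ ch (root a 0 z) →
      IsMCS (root a 0 z) ∧ top0 N Θ ch fc (root a 0 z) ∧
        ∀ w, IsMCS w → Acc 0 (root a 0 z) w → top0 N Θ ch fc w := by
    intro ι _ z a hz hkv
    refine ⟨root_mcs a 0 z (fun i => (hz i).1) (fun i j m hm => absurd hm (Nat.not_lt_zero m))
      (fun i m hm => absurd hm (Nat.not_lt_zero m)), htop _ hkv, ?_⟩
    intro w hw h
    obtain ⟨i, rfl | hi⟩ := acc_root_finite a 0 z (fun i => (hz i).1) hw h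
    · exact (hz i).2.1
    · exact (hz i).2.2 w hw hi
  obtain ⟨v, hv1, hv2, hv3⟩ := real_gen hZ n N 0 Θ Θ ch RC LC hN hval subset_rfl hP hC
    (fun v => IsMCS v ∧ top0 N Θ ch fc v ∧ ∀ w, IsMCS w → Acc 0 v w → top0 N Θ ch fc w)
    (fun v hv => hv.1)
    (fun v hv x hx i hi => absurd hi (Nat.not_lt_zero i))
    (fun v w hv hw i hi => absurd hi (Nat.not_lt_zero i))
    (fun ι 𝒱 v hv => ⟨lim_mcs 𝒱 v fun i => (hv i).1,
      hdfn.lim 𝒱 v (fun i => (hv i).1) fun i => (hv i).2.1,
      (Dfn.succ 0 hdfn).lim 𝒱 v (fun i => (hv i).1) fun i => (hv i).2.2⟩)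
    (fun v hv _ i hi => absurd hi (Nat.not_lt_zero i))
    (fun ι hfin _ z a hz _ hkv => groot ι hfin z a hz hkv)
    (by
      intro u v hu hv h hkv
      refine ⟨hv, htop v hkv, fun w hw h1 => hu.2.2 w hw ?_⟩
      intro θ hθ
      exact h1 θ ((h 0 (Nat.lt_succ_self 0) θ).2 hθ))
    (by
      intro x hx htr
      have hz : ∀ i : Empty, IsMCS ((fun i : Empty => (i.elim : Set (Fm (Fin n)))) i) :=
        fun i => i.elim
      have hvm : IsMCS (root (val n x) 0 fun i : Empty => (i.elim : Set (Fm (Fin n)))) :=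
        root_mcs _ 0 _ hz (fun i => i.elim) (fun i => i.elim)
      have hty : ty N (root (val n x) 0 fun i : Empty => (i.elim : Set (Fm (Fin n)))) = x := by
        refine ty_eq hN hvm (hval x hx) (fun i hi _ => Iff.rfl) ?_
        intro m χ hm
        exact iff_of_true ⟨fun _ i => i.elim, fun _ i => i.elim⟩ (htr m (Nat.zero_le m) χ hm)
      have hbot : Fm.box 0 bot ∈ root (val n x) 0 fun i : Empty => (i.elim : Set (Fm (Fin n))) :=
        ⟨fun _ i => i.elim, fun _ i => i.elim⟩
      refine ⟨_, groot Empty inferInstance _ _ (fun i => i.elim) ?_, hty, hbot⟩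
      refine ⟨by rw [hty]; exact hx, Or.inl fun w hw => ?_⟩
      exact (box_bot_iff hvm 0).1 hbot w hw.1 hw.2.1) x hx
  exact ⟨v, hv1.1, hv2, hv1.2.1, hv1.2.2⟩

end Pool.Agent.W897.GA
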