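import Mathlib
import Pool.Agent.W897.GA.Tools

/-!
# Admissible rules of GLP: the data of a substitution satisfy the criterion
-/

set_option autoImplicit false

namespace Pool.Agent.W897.GA

open Pool.Agent.H557R3.GLP Pool.Agent.H557R3.GLP.Fm

section

variable {n N : ℕ} {β : Type} {σ : Fin n → Fm β}

theorem kroot' (hK : S_Kroot) (ι : Type) (K : ℕ) (u : ι → Set (Fm (Fin n)))
    (hu : ∀ i, KS σ (u i)) (hs : ∀ i j, SameTh K (u i) (u j)) (hr : ∀ i, Rfl K (u i)) :
    ∃ v, KS σ v ∧ ∀ m x, Fm.box m x ∈ v ↔ rootBox K u m x :=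
  hK n β σ ι K u hu (fun m hm i j x h => (hs i j m hm x).1 h)
    (fun m hm i j x h => hr j m hm x ((hs i j m hm x).1 h))

/-- tight predecessors of nonempty sets -/
theorem tp_nonempty (hK : S_Kroot) (k : ℕ) (v0 : Set (Fm (Fin n))) (X : Set (Set ℕ))
    (hX : X.Nonempty)
    (h : ∀ x ∈ X, ∃ v, KS σ v ∧ SameTh k v v0 ∧ Rfl k v ∧ ty N v = x) :
    ∃ v, KS σ v ∧ SameTh k v v0 ∧ tight N k X (ty N v) := by
  have h' : ∀ x : X, ∃ v, KS σ v ∧ SameTh k v v0 ∧ Rfl k v ∧ ty N v = x := fun x => h x.1 x.2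
  choose z h1 h2 h3 h4 using h'
  obtain ⟨v, hv, hv2⟩ := kroot' hK X k z h1 (fun i j => (h2 i).trans (h2 j).symm) h3
  obtain ⟨x0, hx0⟩ := hX
  refine ⟨v, hv, ?_, ?_, ?_⟩
  · intro m hm θ
    rw [hv2]
    constructor
    · intro h5
      exact (h2 ⟨x0, hx0⟩ m hm θ).1 (h5.1 hm _)
    · intro h5
      exact ⟨fun _ i => (h2 i m hm θ).2 h5, fun h6 => absurd h6 (ne_of_lt hm)⟩
  · intro χ hχ
    have hb := bc_right k χ
    rw [← mem_part, part_ty, hv2]
    constructor
    · rintro ⟨-, h5⟩ x hx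
      have h6 := h5.2 rfl ⟨x, hx⟩
      have h7 := h4 ⟨x, hx⟩
      simp only at h7
      rw [← h7, mem_ty, mem_ty, D_bc]
      exact ⟨⟨by omega, h6.1⟩, hχ, h6.2⟩
    · intro h5
      refine ⟨hχ, fun h6 => absurd h6 (lt_irrefl k), fun _ i => ?_⟩
      have h6 := h5 i.1 i.2
      rw [← h4 i, mem_ty, mem_ty, D_bc] at h6
      exact ⟨h6.1.2, h6.2.2⟩
  · intro m hm χ hχ
    rw [← mem_part, part_ty, hv2]
    exact ⟨hχ, fun h5 => absurd h5 (by omega), fun h5 => absurd h5 (by omega)⟩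

theorem tight_empty {k : ℕ} {v : Set (Fm (Fin n))} (hv : IsMCS v) (h : Fm.box k bot ∈ v) :
    tight N k ∅ (ty N v) := by
  have h1 := triv_of_bot (N := N) hv h
  refine ⟨fun χ hχ => ?_, fun m hm χ hχ => h1 m (by omega) χ hχ⟩
  exact iff_of_true (h1 k le_rfl χ hχ) (fun x hx => absurd hx (Set.notMem_empty x))

end

theorem a1 (hK : S_Kroot) : S_A1 := by
  intro n N β σ f
  induction f with
  | zero => intro k v0 _ _; trivial
  | succ f ih =>
    intro k v0 hv0 hex
    refine ⟨?_, ?_, ?_, ?_⟩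
    · -- tight predecessors
      intro X hX
      rcases X.eq_empty_or_nonempty with rfl | hne
      · rcases hex with rfl | ⟨u, hu, hus, hur⟩
        · obtain ⟨v, hv, hv2⟩ := kroot' (σ := σ) hK Empty 0 (fun i => i.elim) (fun i => i.elim)
            (fun i => i.elim) (fun i => i.elim)
          refine ⟨ty N v, ⟨v, hv, fun m hm => absurd hm (Nat.not_lt_zero m), rfl⟩, ?_⟩
          refine tight_empty hv.1 ?_
          rw [hv2]
          exact ⟨fun _ i => i.elim, fun _ i => i.elim⟩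
        · rcases Nat.eq_zero_or_pos k with rfl | hk
          · obtain ⟨v, hv, hv2⟩ := kroot' (σ := σ) hK Empty 0 (fun i => i.elim) (fun i => i.elim)
              (fun i => i.elim) (fun i => i.elim)
            refine ⟨ty N v, ⟨v, hv, fun m hm => absurd hm (Nat.not_lt_zero m), rfl⟩, ?_⟩
            refine tight_empty hv.1 ?_
            rw [hv2]
            exact ⟨fun _ i => i.elim, fun _ i => i.elim⟩
          obtain ⟨j, rfl⟩ : ∃ j, k = j + 1 := ⟨k - 1, by omega⟩
          obtain ⟨v, hv, hv2⟩ := kroot' (σ := σ) hK Unit j (fun _ => u) (fun _ => hu)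
            (fun _ _ => SameTh.refl _) (fun _ => hur.mono (Nat.le_succ j))
          refine ⟨ty N v, ⟨v, hv, SameTh.trans ?_ hus, rfl⟩, tight_empty hv.1 ?_⟩
          · intro m hm θ
            rw [hv2]
            rcases Nat.lt_succ_iff_lt_or_eq.1 hm with hm' | rfl
            · exact ⟨fun h => h.1 hm' (), fun h => ⟨fun _ _ => h, fun h' => absurd h' (ne_of_lt hm')⟩⟩
            · exact ⟨fun h => (h.2 rfl ()).2, fun h => ⟨fun h' => absurd h' (lt_irrefl m),
                fun _ _ => ⟨hur m hm θ h, h⟩⟩⟩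
          · rw [hv2]
            exact ⟨fun h' => absurd h' (by omega), fun h' => absurd h' (by omega)⟩
      · obtain ⟨v, hv, hs, ht⟩ := tp_nonempty (N := N) hK k v0 X hne fun x hx => hX hx
        exact ⟨ty N v, ⟨v, hv, hs, rfl⟩, ht⟩
    · -- witnesses
      rintro x ⟨v, hv, hvs, rfl⟩ χ hχ hn
      have h1 : Fm.box k (D n χ) ∉ v := by
        intro h
        apply hn
        rw [← mem_part, part_ty]
        exact ⟨hχ, h⟩
      obtain ⟨w, hw, hR, h2, h3⟩ := lob_succ hv.1 k h1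
      refine ⟨ty N w, ⟨w, hv.acc hw hR, (Acc.same hv.1 hw hR).symm.trans hvs,
        acc_rfl hv.1 hw hR, rfl⟩, fun h => h2 h.2, ?_, ?_⟩
      · rw [← mem_part, part_ty]
        exact ⟨hχ, h3⟩
      · intro χ' h
        exact ⟨Acc.part_mem hR h, Acc.part_sub hv.1 hR h⟩
    · -- trivial types
      rintro ⟨-, v, hv, hvs, hvr, rfl⟩
      by_cases hb : Fm.box k bot ∈ v
      · exact ⟨ty N v, ⟨v, hv, hvs, hvr, rfl⟩, triv_of_bot hv.1 hb⟩
      · obtain ⟨w, hw, hR, -, h3⟩ := lob_succ hv.1 k hb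
        exact ⟨ty N w, ⟨w, hv.acc hw hR, (Acc.same hv.1 hw hR).symm.trans hvs,
          acc_rfl hv.1 hw hR, rfl⟩, triv_of_bot hw h3⟩
    · -- the children
      rintro x ⟨v, hv, hvs, rfl⟩ hnt
      unfold triv at hnt
      push Not at hnt
      obtain ⟨m, hm, χ, hχ, hn⟩ := hnt
      have h1 : Fm.box m (D n χ) ∉ v := by
        intro h
        apply hn
        rw [← mem_part, part_ty]
        exact ⟨hχ, h⟩
      obtain ⟨w, hw, hR, -⟩ := exists_Acc hv.1 m h1
      have hR' : Acc (k + 1) v w := Acc.mono hm hv.1 hR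
      have hws : SameTh (k + 1) w v := (Acc.same hv.1 hw hR').symm
      have hwr : Rfl (k + 1) w := acc_rfl hv.1 hw hR'
      refine ⟨{y | ∃ z, KS σ z ∧ SameTh (k + 1) z v ∧ Rfl (k + 1) z ∧ ty N z = y},
        {y | ∃ z, KS σ z ∧ SameTh (k + 1) z v ∧ ty N z = y}, ?_, ?_, ?_, ?_, ?_, ?_⟩
      · rintro y ⟨z, hz, hzs, hzr, rfl⟩
        exact ⟨⟨z, hz, (hzs.mono (Nat.le_succ k)).trans hvs, hzr.mono (Nat.le_succ k), rfl⟩,
          SameTh.part hzs (Nat.lt_succ_self k), hzr.rf (Nat.lt_succ_self k)⟩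
      · rintro y ⟨z, hz, hzs, rfl⟩
        exact ⟨⟨z, hz, (hzs.mono (Nat.le_succ k)).trans hvs, rfl⟩,
          SameTh.part hzs (Nat.lt_succ_self k)⟩
      · rintro y ⟨z, hz, hzs, hzr, rfl⟩
        exact ⟨z, hz, hzs, rfl⟩
      · exact ⟨v, hv, SameTh.refl v, rfl⟩
      · exact ⟨ty N w, w, hv.acc hw hR', hws, hwr, rfl⟩
      · exact ih (k + 1) v hv (Or.inr ⟨w, hv.acc hw hR', hws, hwr⟩)

theorem a2 (hK : S_Kroot) (hZ : S_Zorn) : S_A2 := by
  intro n N β σ f
  induction f with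
  | zero => intro k v0 hv0 _ _; exact ⟨ty N v0, v0, hv0, SameTh.refl v0, rfl⟩
  | succ f ih =>
    intro k v0 hv0 hbot hH
    refine ⟨?_, ?_⟩
    · intro X hX
      rcases X.eq_empty_or_nonempty with rfl | hne
      · exact ⟨ty N v0, ⟨v0, hv0, SameTh.refl v0, rfl⟩, tight_empty hv0.1 hbot⟩
      · obtain ⟨v, hv, hs, ht⟩ := tp_nonempty (N := N) hK k v0 X hne (by
          intro x hx
          obtain ⟨⟨v, hv, hvs, rfl⟩, hrf⟩ := hX hx
          exact ⟨v, hv, hvs, hH v hv hvs hrf, rfl⟩)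
        exact ⟨ty N v, ⟨v, hv, hs, rfl⟩, ht⟩
    · rintro s ⟨vs, hvs, hvss, rfl⟩ hrf
      set P : Set (Fm (Fin n)) → Prop := fun v => KS σ v ∧ SameTh k v v0 ∧
        (∀ i < k + 1, rf i (ty N v)) ∧ part k (ty N v) = part k (ty N vs) with hPdef
      have hPr : ∀ v, P v → Rfl k v := fun v hv =>
        hH v hv.1 hv.2.1 fun i hi => hv.2.2.1 i (Nat.lt_succ_of_lt hi)
      obtain ⟨u, hu, hmax⟩ := hZ (Fin n) k P (fun v hv => hv.1.1) ⟨vs, hvs, hvss, hrf, rfl⟩ (by
        intro ι 𝒱 v hv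
        have hvm : ∀ i, IsMCS (v i) := fun i => (hv i).1.1
        refine ⟨KS.lim 𝒱 v fun i => (hv i).1, lim_same 𝒱 v k v0 fun i => (hv i).2.1, ?_, ?_⟩
        · exact (Dfn.tyProp (n := n) (N := N) fun t => ∀ i < k + 1, rf i t).lim 𝒱 v hvm
            fun i => (hv i).2.2.1
        · exact (Dfn.tyProp (n := n) (N := N) fun t => part k t = part k (ty N vs)).lim 𝒱 v hvm
            fun i => (hv i).2.2.2)
      have hur : Rfl k u := hPr u hu
      obtain ⟨v1, hv1, hv1b⟩ := kroot' (σ := σ) hK Unit k (fun _ => u) (fun _ => hu.1)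
        (fun _ _ => SameTh.refl _) (fun _ => hur)
      have hv1s : SameTh k v1 u := by
        intro m hm θ
        rw [hv1b]
        exact ⟨fun h => h.1 hm (), fun h => ⟨fun _ _ => h, fun h' => absurd h' (ne_of_lt hm)⟩⟩
      have hv1k : ∀ θ, Fm.box k θ ∈ v1 ↔ θ ∈ u ∧ Fm.box k θ ∈ u := by
        intro θ
        rw [hv1b]
        exact ⟨fun h => h.2 rfl (), fun h => ⟨fun h' => absurd h' (lt_irrefl k), fun _ _ => h⟩⟩
      have hv1p : part k (ty N v1) = part k (ty N vs) := by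
        rw [← hu.2.2.2]
        ext χ
        rw [part_ty, hv1k, part_ty]
        constructor
        · rintro ⟨h1, -, h2⟩
          exact ⟨h1, h2⟩
        · rintro ⟨h1, h2⟩
          refine ⟨h1, ?_, h2⟩
          have h3 : bc k χ ∈ ty N u := by
            rw [← mem_part, part_ty]
            exact ⟨h1, h2⟩
          exact (hu.2.2.1 k (Nat.lt_succ_self k) χ h3).2
      have hv10 : SameTh k v1 v0 := hv1s.trans hu.2.1
      refine ⟨{y | ∃ v, KS σ v ∧ SameTh (k + 1) v v1 ∧ ty N v = y}, ?_, ?_⟩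
      · rintro y ⟨v, hv, hvs1, rfl⟩
        exact ⟨⟨v, hv, (hvs1.mono (Nat.le_succ k)).trans hv10, rfl⟩,
          (SameTh.part hvs1 (Nat.lt_succ_self k)).trans hv1p⟩
      · refine ih (k + 1) v1 hv1 ?_ ?_
        · rw [hv1b]
          exact ⟨fun h' => absurd h' (by omega), fun h' => absurd h' (by omega)⟩
        · intro v hv hvs1 hrfv
          have hPv : P v := ⟨hv, (hvs1.mono (Nat.le_succ k)).trans hv10, hrfv,
            (SameTh.part hvs1 (Nat.lt_succ_self k)).trans hv1p⟩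
          have hk1 : ∀ θ, Fm.box k θ ∈ v → θ ∈ u ∧ Fm.box k θ ∈ u := fun θ h =>
            (hv1k θ).1 ((hvs1 k (Nat.lt_succ_self k) θ).1 h)
          have h1 := hmax v hPv fun θ h => (hk1 θ h).1
          intro i hi θ hθ
          rcases Nat.lt_succ_iff_lt_or_eq.1 hi with hi | rfl
          · exact hPr v hPv i hi θ hθ
          · rcases h1 with h1 | h1
            · rw [h1]
              exact (hk1 θ hθ).1
            · exact h1 θ (hk1 θ hθ).2

end Pool.Agent.W897.GA
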