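import Mathlib
import Pool.Agent.W897.GA.Real
import Pool.Agent.W897.GA.Fin
import Pool.Agent.W897.GA.Theo
import Pool.Agent.W352.GLPA.Zorn
import Pool.Agent.W352.GLPA.Kroot
import Pool.Agent.W352.GLPA.Proj
import Pool.Agent.W960.GA.Comp

/-!
# Admissible rules of GLP: the criterion
-/

set_option autoImplicit false

namespace Pool.Agent.W897.GA

open Pool.Agent.H557R3.GLP Pool.Agent.H557R3.GLP.Fm

theorem hZorn : S_Zorn := Pool.Agent.W352.GLPA.zorn
theorem hKroot : S_Kroot := Pool.Agent.W352.GLPA.kroot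
theorem hProj : S_proj := Pool.Agent.W352.GLPA.proj
theorem hComp : S_comp := Pool.Agent.W960.GA.comp

/-! ### from the criterion to a substitution -/

theorem rp0_of_rp {N f k : ℕ} {R L : Set (Set ℕ)} (h : RP N (f + 1) k R L) : RP0 N k R L :=
  ⟨h.1, h.2.1, h.2.2.1⟩

theorem ctx_of_child {n N k : ℕ} {R L : Set (Set ℕ)}
    {ch : Set ℕ → (Set (Fm (Fin n)) → Prop) × (Set (Fm (Fin n)) → Prop)}
    {RC LC : Set ℕ → Set (Set ℕ)} (hN : N < n) (hval : ∀ x ∈ L, Valid N x) (hRL : R ⊆ L)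
    (hP : RP0 N k R L) (hC : Child n N k R L ch RC LC) :
    Ctx n N k R L (kap N k L ch) (del N k R L ch) := by
  have hd := dfnK n N k R L ch (fun x hx => (hval x hx).1)
    (fun x hx hnt => ⟨(hC.ctx x hx hnt).dfnκ, (hC.ctx x hx hnt).dfnδ⟩)
  refine
    { dfnκ := hd.1
      dfnδ := hd.2
      kL := fun v _ h => h.1
      dR := fun v _ h => h.1
      dk := fun v _ h => ⟨h.2.1, h.2.2.elim Or.inl fun h' => Or.inr (Or.inl h')⟩
      base := ?_
      ep := ep n N k R L ch RC LC hN hval hRL hP hC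
      real := real hZorn n N k R L ch RC LC hN hval hRL hP hC }
  intro v hv hbot
  have hE : ∀ w, ¬ E N k v w := fun w hw => (box_bot_iff hv k).1 hbot w hw.1 hw.2.1
  exact ⟨fun h => ⟨h, Or.inl hE⟩, fun h => ⟨h, hRL h, Or.inl hE⟩⟩

theorem le_of_not_triv {N k : ℕ} {x : Set ℕ} (h : ¬ triv N k x) : k ≤ N := by
  unfold triv at h
  push Not at h
  obtain ⟨m, hm, χ, hχ, -⟩ := h
  have := bc_left m χ
  omega

theorem children {n N f k : ℕ} {R L : Set (Set ℕ)} (hk : k + (f + 1) = N + 1)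
    (hval : ∀ x ∈ L, Valid N x) (hRP : RP N (f + 1) k R L)
    (ih : ∀ R' L' : Set (Set ℕ), (∀ x ∈ L', Valid N x) → R' ⊆ L' → RP N f (k + 1) R' L' →
      k + 1 ≤ N → ∃ κ δ, Ctx n N (k + 1) R' L' κ δ) :
    ∃ ch RC LC, Child n N k R L ch RC LC := by
  classical
  have key : ∀ x : Set ℕ, ∃ (c : (Set (Fm (Fin n)) → Prop) × (Set (Fm (Fin n)) → Prop))
      (R' L' : Set (Set ℕ)), x ∈ L → ¬ triv N (k + 1) x →
      (∀ y ∈ R', y ∈ R ∧ part k y = part k x ∧ rf k y) ∧
      (∀ y ∈ L', y ∈ L ∧ part k y = part k x) ∧ R' ⊆ L' ∧ x ∈ L' ∧ R'.Nonempty ∧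
      (∃ b ∈ R', triv N (k + 1) b) ∧ Ctx n N (k + 1) R' L' c.1 c.2 := by
    intro x
    by_cases hx : x ∈ L
    swap
    · exact ⟨(fun _ => False, fun _ => False), ∅, ∅, fun h => absurd h hx⟩
    by_cases hnt : triv N (k + 1) x
    · exact ⟨(fun _ => False, fun _ => False), ∅, ∅, fun _ h => absurd hnt h⟩
    obtain ⟨R', L', h1, h2, h3, h4, h5, h6⟩ := hRP.2.2.2 x hx hnt
    have hkN := le_of_not_triv hnt
    obtain ⟨κ, δ, hctx⟩ := ih R' L' (fun y hy => hval y (h2 y hy).1) h3 h6 hkN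
    obtain ⟨f', rfl⟩ : ∃ f', f = f' + 1 := ⟨f - 1, by omega⟩
    exact ⟨(κ, δ), R', L', fun _ _ => ⟨h1, h2, h3, h4, h5, h6.2.2.1 h5, hctx⟩⟩
  choose ch RC LC h using key
  exact ⟨ch, RC, LC,
    { hR := fun x hx hnt => (h x hx hnt).1
      hL := fun x hx hnt => (h x hx hnt).2.1
      hRL := fun x hx hnt => (h x hx hnt).2.2.1
      mem := fun x hx hnt => (h x hx hnt).2.2.2.1
      ne := fun x hx hnt => (h x hx hnt).2.2.2.2.1
      tr := fun x hx hnt => (h x hx hnt).2.2.2.2.2.1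
      ctx := fun x hx hnt => (h x hx hnt).2.2.2.2.2.2 }⟩

theorem rpb {n N : ℕ} (hN : N < n) : ∀ (f k : ℕ) (R L : Set (Set ℕ)), k + f = N + 1 →
    (∀ x ∈ L, Valid N x) → R ⊆ L → RP N f k R L → k ≤ N → ∃ κ δ, Ctx n N k R L κ δ := by
  intro f
  induction f with
  | zero => intro k R L hk _ _ _ hkN; omega
  | succ f ih =>
    intro k R L hk hval hRL hRP hkN
    obtain ⟨ch, RC, LC, hC⟩ := children (n := n) hk hval hRP
      (fun R' L' hval' hRL' hRP' hk' => ih (k + 1) R' L' (by omega) hval' hRL' hRP' hk')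
    exact ⟨_, _, ctx_of_child hN hval hRL (rp0_of_rp hRP) hC⟩

theorem top_level {n N : ℕ} (hN : N < n) (Θ : Set (Set ℕ)) (hval : ∀ x ∈ Θ, Valid N x)
    (hRP : RP N (N + 1) 0 Θ Θ) (hFP : FP N (N + 1) 0 Θ) :
    ∃ P : Set (Fm (Fin n)) → Prop, Dfn P ∧ (∀ v, P v → ty N v ∈ Θ) ∧
      (∀ y, IsMCS y → (∀ w, IsMCS w → Acc 0 y w → P w) → ∃ a : Fin n → Prop, P (chg a y)) ∧
      ∀ x ∈ Θ, ∃ v, IsMCS v ∧ ty N v = x ∧ P v ∧ ∀ w, IsMCS w → Acc 0 v w → P w := by
  classical
  obtain ⟨ch, RC, LC, hC⟩ := children (n := n) (k := 0) (by omega) hval hRP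
    (fun R' L' hval' hRL' hRP' hk' => rpb hN N 1 R' L' (by omega) hval' hRL' hRP' hk')
  have hP := rp0_of_rp hRP
  -- the final children
  have key : ∀ S : Set ℕ, ∃ (L' : Set (Set ℕ)) (κ : Set (Fm (Fin n)) → Prop), Dfn κ ∧
      ∀ s ∈ Θ, rf 0 s → part 0 s = S → (∀ y ∈ L', y ∈ Θ ∧ part 0 y = S) ∧ FCtx n N 1 L' κ := by
    intro S
    by_cases hS : ∃ s ∈ Θ, rf 0 s ∧ part 0 s = S
    · obtain ⟨s, hs, h1, rfl⟩ := hS
      obtain ⟨L', h2, h3⟩ := hFP.2 s hs (by
        intro i hi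
        obtain rfl : i = 0 := by omega
        exact h1)
      obtain ⟨κ, hκ⟩ := fin n N N 1 L' hN (by omega) (fun x hx => hval x (h2 x hx).1) h3
      exact ⟨L', κ, hκ.dfn, fun _ _ _ _ => ⟨h2, hκ⟩⟩
    · exact ⟨∅, fun _ => False, Dfn.const False, fun s hs h1 h2 => absurd ⟨s, hs, h1, h2⟩ hS⟩
  choose LF fc hdfn hfc using key
  have hd : Dfn (top0 N Θ ch fc) := dfnTop n N Θ ch fc (fun x hx => (hval x hx).1)
    (fun x hx hnt => ⟨(hC.ctx x hx hnt).dfnκ, (hC.ctx x hx hnt).dfnδ⟩) hdfn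
  refine ⟨top0 N Θ ch fc, hd, fun v h => h.1, ?_, ?_⟩
  · exact epTop n N Θ ch RC LC fc LF hN hval hP hC
      (fun s hs h1 => hfc (part 0 s) s hs h1 rfl)
  · exact realTop hZorn n N Θ ch RC LC fc hN hval hP hC hd

/-- A refuting substitution from the criterion. -/
theorem subst_of_crit {φ ψ : ℕ} (h : Crit φ ψ) {n : ℕ} (hn : max φ ψ < n) :
    ∃ T : Fin n → Fm (Fin n), Der ∅ ((D n φ).subst T) ∧ ¬ Der ∅ ((D n ψ).subst T) := by
  obtain ⟨Θ, hval, hRP, hFP, hφ, x0, hx0, hψ⟩ := h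
  set N := max φ ψ with hNdef
  obtain ⟨P, ⟨π, hπ⟩, hPty, hPep, hPreal⟩ := top_level hn Θ hval hRP hFP
  obtain ⟨T, hT1, hT2⟩ := hProj n π (by
    intro y hy hbox
    obtain ⟨a, ha⟩ := hPep y hy fun w hw hR => (hπ w hw).2 (hR _ hbox)
    exact ⟨a, (hπ _ (chg_mcs a hy)).1 ha⟩)
  refine ⟨T, ?_, ?_⟩
  · rw [der_iff]
    intro u hu
    have hv : IsMCS {a : Fm (Fin n) | a.subst T ∈ u} := hu.comap T
    have h1 : π ∈ {a : Fm (Fin n) | a.subst T ∈ u} := hu.thm _ hT1
    have h2 := hφ _ (hPty _ ((hπ _ hv).2 h1))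
    exact h2.2
  · intro hder
    obtain ⟨v, hv, hty, hPv, hsucc⟩ := hPreal x0 hx0
    have h1 : π ∈ v := (hπ v hv).1 hPv
    have h2 : Fm.box 0 π ∈ v := by
      rw [mem_box hv]
      intro w hw hR
      exact (hπ w hw).1 (hsucc w hw hR)
    have h3 := (hT2 (D n ψ) v hv h1 h2).1 (hv.thm _ hder)
    apply hψ
    rw [← hty]
    exact ⟨le_max_right _ _, h3⟩

/-! ### from a substitution to the criterion -/

theorem crit_of_subst {φ ψ : ℕ} {n : ℕ} {β : Type} (σ : Fin n → Fm β)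
    (h1 : Der ∅ ((D n φ).subst σ)) (h2 : ¬ Der ∅ ((D n ψ).subst σ)) : Crit φ ψ := by
  set N := max φ ψ with hNdef
  -- a point with no successors
  obtain ⟨v0, hv0, hv0b⟩ := kroot' (σ := σ) hKroot Empty 0 (fun i => i.elim) (fun i => i.elim)
    (fun i => i.elim) (fun i => i.elim)
  have hbot : Fm.box 0 bot ∈ v0 := by
    rw [hv0b]
    exact ⟨fun _ i => i.elim, fun _ i => i.elim⟩
  have e1 : {x | ∃ v, KS σ v ∧ SameTh 0 v v0 ∧ Rfl 0 v ∧ ty N v = x} =
      {x | ∃ v, KS σ v ∧ ty N v = x} := by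
    ext x
    constructor
    · rintro ⟨v, hv, -, -, h⟩
      exact ⟨v, hv, h⟩
    · rintro ⟨v, hv, h⟩
      exact ⟨v, hv, fun m hm => absurd hm (Nat.not_lt_zero m),
        fun m hm => absurd hm (Nat.not_lt_zero m), h⟩
  have e2 : {x | ∃ v, KS σ v ∧ SameTh 0 v v0 ∧ ty N v = x} =
      {x | ∃ v, KS σ v ∧ ty N v = x} := by
    ext x
    constructor
    · rintro ⟨v, hv, -, h⟩
      exact ⟨v, hv, h⟩
    · rintro ⟨v, hv, h⟩
      exact ⟨v, hv, fun m hm => absurd hm (Nat.not_lt_zero m), h⟩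
  have hA1 := a1 hKroot n N β σ (N + 1) 0 v0 hv0 (Or.inl rfl)
  have hA2 := a2 hKroot hZorn n N β σ (N + 1) 0 v0 hv0 hbot
    (fun v _ _ _ m hm => absurd hm (Nat.not_lt_zero m))
  rw [e1, e2] at hA1
  rw [e2] at hA2
  refine ⟨{x | ∃ v, KS σ v ∧ ty N v = x}, ?_, hA1, hA2, ?_, ?_⟩
  · rintro x ⟨v, hv, rfl⟩
    exact ty_valid hv.1
  · rintro x ⟨v, hv, rfl⟩
    exact ⟨le_max_left _ _, hv.2 _ h1⟩
  · rw [der_iff] at h2
    push Not at h2
    obtain ⟨u, hu, h3⟩ := h2
    refine ⟨ty N {a : Fm (Fin n) | a.subst σ ∈ u}, ⟨_, ⟨hu.comap σ, ?_⟩, rfl⟩, ?_⟩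
    · intro θ hθ
      exact hu.thm _ hθ
    · intro h4
      exact h3 h4.2

/-! ### formulas over all variables -/

/-- restriction to the variables `< n` -/
def rho (n : ℕ) (i : ℕ) : Fm (Fin n) := if h : i < n then var ⟨i, h⟩ else bot

theorem D_code (n : ℕ) (Φ : Fm ℕ) : D n (code Φ) = Φ.subst (rho n) := by
  induction Φ with
  | var i =>
    rw [code]
    by_cases h : i < n
    · rw [D_vc n i h, subst_var, rho, dif_pos h]
    · rw [subst_var, rho, dif_neg h]
      have e : (vc i - 1) / 3 = i := by unfold vc; omega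
      have e0 : ¬ vc i = 0 := vc_ne_zero i
      have e1 : (vc i - 1) % 3 = 0 := by unfold vc; omega
      unfold D
      rw [dif_neg e0, dif_pos e1, dif_neg (by rw [e]; exact h)]
  | bot => rw [code, D_zero]; rfl
  | imp a b iha ihb => rw [code, D_ic, iha, ihb]; rfl
  | box k a ih => rw [code, D_bc, ih]; rfl

theorem subst_restrict {β : Type} (n : ℕ) (σ : ℕ → Fm β) (Φ : Fm ℕ) (h : code Φ < n) :
    (Φ.subst (rho n)).subst (fun i : Fin n => σ i.1) = Φ.subst σ := by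
  induction Φ with
  | var i =>
    have hi := vc_gt i
    rw [code] at h
    have : i < n := by omega
    rw [subst_var, subst_var, rho, dif_pos this]
    rfl
  | bot => rfl
  | imp a b iha ihb =>
    rw [code] at h
    have ha := ic_left (code a) (code b)
    have hb := ic_right (code a) (code b)
    simp only [subst_imp]
    rw [iha (by omega), ihb (by omega)]
  | box k a ih =>
    rw [code] at h
    have ha := bc_right k (code a)
    simp only [subst_box]
    rw [ih (by omega)]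

/-- the rule is admissible -/
def AdmD (Φ Ψ : Fm ℕ) : Prop := ∀ σ : ℕ → Fm ℕ, Der ∅ (Φ.subst σ) → Der ∅ (Ψ.subst σ)

/-- **The criterion.** -/
theorem admD_iff (Φ Ψ : Fm ℕ) : AdmD Φ Ψ ↔ ¬ Crit (code Φ) (code Ψ) := by
  set N := max (code Φ) (code Ψ) with hNdef
  have hn1 : code Φ < N + 1 := lt_of_le_of_lt (le_max_left _ _) (Nat.lt_succ_self _)
  have hn2 : code Ψ < N + 1 := lt_of_le_of_lt (le_max_right _ _) (Nat.lt_succ_self _)
  constructor
  · intro hadm hcrit
    obtain ⟨T, h1, h2⟩ := subst_of_crit hcrit (n := N + 1) (Nat.lt_succ_self _)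
    rw [D_code] at h1 h2
    -- the substitution
    have h3 := hadm (fun i => ((rho (N + 1) i).subst T).subst fun j => var j.1) (by
      have := h1.subst' (fun j : Fin (N + 1) => (var j.1 : Fm ℕ))
      rw [subst_subst, subst_subst] at this
      convert this using 2
      funext i
      rw [subst_subst])
    apply h2
    have h4 := h3.subst' (rho (N + 1))
    have h5 : (Ψ.subst fun i => ((rho (N + 1) i).subst T).subst fun j => var j.1).subst
        (rho (N + 1)) = (Ψ.subst (rho (N + 1))).subst T := by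
      rw [subst_subst, subst_subst]
      congr 1
      funext i
      rw [subst_subst]
      conv_rhs => rw [← subst_id ((rho (N + 1) i).subst T)]
      congr 1
      funext j
      rw [subst_var, rho, dif_pos j.2]
    rwa [h5] at h4
  · intro hcrit σ h1
    by_contra h2
    apply hcrit
    refine crit_of_subst (n := N + 1) (fun i : Fin (N + 1) => σ i.1) ?_ ?_
    · rw [D_code, subst_restrict _ σ Φ hn1]
      exact h1
    · rw [D_code, subst_restrict _ σ Ψ hn2]
      exact h2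

/-! ### the numbering is a bijection -/

theorem code_injective : Function.Injective code := by
  intro a
  induction a with
  | var i =>
    intro b h
    cases b with
    | var j => rw [vc_inj.1 h]
    | bot => exact absurd h (vc_ne_zero i)
    | imp a b => exact absurd h (vc_ne_ic _ _ _)
    | box k a => exact absurd h (vc_ne_bc _ _ _)
  | bot =>
    intro b h
    cases b with
    | var j => exact absurd h.symm (vc_ne_zero j)
    | bot => rfl
    | imp a b => exact absurd h.symm (ic_ne_zero _ _)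
    | box k a => exact absurd h.symm (bc_ne_zero _ _)
  | imp a a' ih ih' =>
    intro b h
    cases b with
    | var j => exact absurd h.symm (vc_ne_ic _ _ _)
    | bot => exact absurd h (ic_ne_zero _ _)
    | imp b b' =>
      obtain ⟨h1, h2⟩ := ic_inj.1 h
      rw [ih h1, ih' h2]
    | box k a => exact absurd h (ic_ne_bc _ _ _ _)
  | box k a ih =>
    intro b h
    cases b with
    | var j => exact absurd h.symm (vc_ne_bc _ _ _)
    | bot => exact absurd h (bc_ne_zero _ _)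
    | imp b b' => exact absurd h.symm (ic_ne_bc _ _ _ _)
    | box l b =>
      obtain ⟨h1, h2⟩ := bc_inj.1 h
      rw [h1, ih h2]

theorem code_surjective : Function.Surjective code := by
  intro c
  induction c using Nat.strong_induction_on with
  | _ c ih =>
    rcases num_cases c with rfl | ⟨i, rfl⟩ | ⟨a, b, rfl⟩ | ⟨k, a, rfl⟩
    · exact ⟨bot, rfl⟩
    · exact ⟨var i, rfl⟩
    · obtain ⟨x, hx⟩ := ih a (ic_left a b)
      obtain ⟨y, hy⟩ := ih b (ic_right a b)
      exact ⟨imp x y, by rw [code, hx, hy]⟩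
    · obtain ⟨x, hx⟩ := ih a (bc_right k a)
      exact ⟨Fm.box k x, by rw [code, hx]⟩

/-- **Decidability of the admissible rules** (with the derivations `Der ∅`). -/
theorem decidable_admD : ComputablePred fun p : ℕ × ℕ =>
    ∃ Φ Ψ : Fm ℕ, code Φ = p.1 ∧ code Ψ = p.2 ∧ AdmD Φ Ψ := by
  refine (ComputablePred.not hComp).of_eq ?_
  rintro ⟨c, d⟩
  constructor
  · intro h
    obtain ⟨Φ, rfl⟩ := code_surjective c
    obtain ⟨Ψ, rfl⟩ := code_surjective d
    exact ⟨Φ, Ψ, rfl, rfl, (admD_iff Φ Ψ).2 h⟩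
  · rintro ⟨Φ, Ψ, rfl, rfl, h⟩
    exact (admD_iff Φ Ψ).1 h

end Pool.Agent.W897.GA
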